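import Mathlib

set_option autoImplicit false

/-!
# Adding a Cohen real: names as functions with the property of Baire on the Cantor space
-/

namespace Pool.Agent.W873.Kh

open Filter Topology Set

/-- the Cantor space -/
def Re : Type := ℕ → Bool

instance : TopologicalSpace Re := inferInstanceAs (TopologicalSpace (ℕ → Bool))
instance : BaireSpace Re := inferInstanceAs (BaireSpace (ℕ → Bool))
instance : MeasurableSpace Re := eventuallyMeasurableSpace (borel Re) (residual Re)
instance : Nonempty Re := inferInstanceAs (Nonempty (ℕ → Bool))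

/-- `Add(ω, 1)`: the finite partial functions from `ℕ` to `Bool`, ordered by reverse inclusion -/
def Add1 : Type := {s : Finset (ℕ × Bool) // ∀ a ∈ s, ∀ b ∈ s, a.1 = b.1 → a.2 = b.2}

instance : Preorder Add1 where
  le s t := t.1 ⊆ s.1
  le_refl s := Finset.Subset.refl _
  le_trans s t u h h' := Finset.Subset.trans h' h

instance : Countable Add1 := inferInstanceAs
  (Countable {s : Finset (ℕ × Bool) // ∀ a ∈ s, ∀ b ∈ s, a.1 = b.1 → a.2 = b.2})

instance : Nonempty Add1 := ⟨⟨∅, by simp⟩⟩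

theorem Add1.le_def {s t : Add1} : s ≤ t ↔ t.1 ⊆ s.1 := Iff.rfl

/-- the clopen set of the reals extending `s` -/
def cyl (s : Add1) : Set Re := {c | ∀ a ∈ s.1, c a.1 = a.2}

theorem cyl_mono {s t : Add1} (h : s ≤ t) : cyl s ⊆ cyl t := fun _ hc a ha => hc a (h ha)

theorem isOpen_eval (n : ℕ) (b : Bool) : IsOpen {c : Re | c n = b} := by
  have h : Continuous (fun c : Re => c n) := continuous_apply (A := fun _ : ℕ => Bool) n
  exact (isOpen_discrete {b}).preimage h

theorem isOpen_cyl (s : Add1) : IsOpen (cyl s) := by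
  have : cyl s = ⋂ a ∈ s.1, {c : Re | c a.1 = a.2} := by
    ext c
    simp [cyl]
  rw [this]
  exact isOpen_biInter_finset fun a _ => isOpen_eval _ _

theorem nonempty_cyl (s : Add1) : (cyl s).Nonempty := by
  classical
  refine ⟨fun n => decide ((n, true) ∈ s.1), fun a ha => ?_⟩
  obtain ⟨n, b⟩ := a
  cases b with
  | true => simpa using ha
  | false =>
    have : (n, true) ∉ s.1 := fun h => by
      have := s.2 _ h _ ha rfl
      simp at this
    simpa using this

/-- the restriction of a real -/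
noncomputable def rst (c : Re) (n : ℕ) : Add1 :=
  ⟨(Finset.range n).image fun i => (i, c i), by
    intro a ha b hb h
    simp only [Finset.mem_image, Finset.mem_range] at ha hb
    obtain ⟨i, _, rfl⟩ := ha
    obtain ⟨j, _, rfl⟩ := hb
    simp only at h ⊢
    rw [h]⟩

theorem mem_rst {c : Re} {n : ℕ} {a : ℕ × Bool} : a ∈ (rst c n).1 ↔ a.1 < n ∧ c a.1 = a.2 := by
  simp only [rst, Finset.mem_image, Finset.mem_range]
  constructor
  · rintro ⟨i, hi, rfl⟩
    exact ⟨hi, rfl⟩
  · rintro ⟨h1, h2⟩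
    exact ⟨a.1, h1, Prod.ext rfl h2⟩

theorem mem_cyl_rst {c x : Re} {n : ℕ} : x ∈ cyl (rst c n) ↔ ∀ i < n, x i = c i := by
  constructor
  · intro h i hi
    exact h (i, c i) (mem_rst.2 ⟨hi, rfl⟩)
  · intro h a ha
    obtain ⟨h1, h2⟩ := mem_rst.1 ha
    rw [h _ h1, h2]

theorem exists_cyl_aux {U : Set (ℕ → Bool)} (hU : IsOpen U) {c : ℕ → Bool} (hc : c ∈ U) :
    ∃ n, ∀ x : ℕ → Bool, (∀ i < n, x i = c i) → x ∈ U := by
  rw [isOpen_pi_iff] at hU
  obtain ⟨I, u, hu, hsub⟩ := hU c hc
  refine ⟨I.sup id + 1, fun x hx => hsub ?_⟩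
  intro i hi
  have h3 : x i = c i := hx i (Nat.lt_succ_of_le (Finset.le_sup (f := id) hi))
  rw [h3]
  exact (hu i hi).2

theorem exists_cyl {U : Set Re} (hU : IsOpen U) {c : Re} (hc : c ∈ U) :
    ∃ n, cyl (rst c n) ⊆ U := by
  obtain ⟨n, hn⟩ := exists_cyl_aux (U := U) hU hc
  exact ⟨n, fun x hx => hn x (mem_cyl_rst.1 hx)⟩

/-- below a condition, inside an open set -/
theorem exists_below {U : Set Re} (hU : IsOpen U) {s : Add1} (h : (U ∩ cyl s).Nonempty) :
    ∃ t ≤ s, cyl t ⊆ U := by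
  obtain ⟨c, hc, hcs⟩ := h
  obtain ⟨n, hn⟩ := exists_cyl hU hc
  let m := max n (s.1.sup (fun a => a.1) + 1)
  refine ⟨rst c m, ?_, fun x hx => hn ?_⟩
  · intro a ha
    refine mem_rst.2 ⟨?_, hcs a ha⟩
    have : a.1 ≤ s.1.sup (fun a => a.1) := Finset.le_sup (f := fun a : ℕ × Bool => a.1) ha
    exact lt_of_lt_of_le (Nat.lt_succ_of_le this) (le_max_right _ _)
  · exact mem_cyl_rst.2 fun i hi => mem_cyl_rst.1 hx i (lt_of_lt_of_le hi (le_max_left _ _))

/-- `s` forces `φ` of the Cohen real -/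
def Frc (s : Add1) (φ : Re → Prop) : Prop := ∀ᶠ c in residual Re, c ∈ cyl s → φ c

theorem Frc.mono {s t : Add1} (h : t ≤ s) {φ : Re → Prop} (hs : Frc s φ) : Frc t φ :=
  Eventually.mono hs fun _ hc ht => hc (cyl_mono h ht)

theorem Frc.imp {s : Add1} {φ ψ : Re → Prop} (hs : Frc s φ) (h : ∀ c, φ c → ψ c) : Frc s ψ :=
  Eventually.mono hs fun c hc ht => h c (hc ht)

theorem Frc.and {s : Add1} {φ ψ : Re → Prop} (h : Frc s φ) (h' : Frc s ψ) :
    Frc s fun c => φ c ∧ ψ c := by
  filter_upwards [h, h'] with c h1 h2 h3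
  exact ⟨h1 h3, h2 h3⟩

theorem Frc.of_ae {s : Add1} {φ : Re → Prop} (h : ∀ᶠ c in residual Re, φ c) : Frc s φ :=
  Eventually.mono h fun _ hc _ => hc

theorem Frc.all {ι : Type} [Countable ι] {s : Add1} {φ : ι → Re → Prop} (h : ∀ i, Frc s (φ i)) :
    Frc s fun c => ∀ i, φ i c := by
  have := eventually_countable_forall.2 h
  filter_upwards [this] with c hc hs i
  exact hc i hs

theorem Frc.exists {s : Add1} {φ : Re → Prop} (h : Frc s φ) : ∃ c ∈ cyl s, φ c := by
  have h1 : Dense {c : Re | c ∈ cyl s → φ c} := dense_of_mem_residual h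
  obtain ⟨c, hc, h2⟩ := h1.inter_open_nonempty _ (isOpen_cyl s) (nonempty_cyl s)
  exact ⟨c, hc, h2 hc⟩

theorem Frc.not_not {s : Add1} {φ : Re → Prop} (h : Frc s φ) (h' : Frc s fun c => ¬ φ c) :
    False := by
  obtain ⟨c, _, h1, h2⟩ := (h.and h').exists
  exact h2 h1

theorem frc_decide {φ : Re → Prop} (h : MeasurableSet {c | φ c}) (s : Add1) :
    ∃ t ≤ s, Frc t φ ∨ Frc t fun c => ¬ φ c := by
  obtain ⟨u, hu, h1⟩ := BaireMeasurableSet.residualEq_isOpen h
  have h1' : ∀ᶠ c in residual Re, (φ c ↔ c ∈ u) := h1.mem_iff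
  by_cases hne : (u ∩ cyl s).Nonempty
  · obtain ⟨t, ht, hsub⟩ := exists_below hu hne
    refine ⟨t, ht, Or.inl ?_⟩
    filter_upwards [h1'] with c hc hct
    exact hc.2 (hsub hct)
  · refine ⟨s, le_rfl, Or.inr ?_⟩
    filter_upwards [h1'] with c hc hct h2
    exact hne ⟨c, hc.1 h2, hct⟩

theorem frc_dense {φ : Re → Prop} {s : Add1} (h : ∀ t ≤ s, ∃ u ≤ t, Frc u φ) : Frc s φ := by
  let U : Set Re := ⋃ u ∈ {u : Add1 | Frc u φ}, cyl u
  have hU : IsOpen U := isOpen_biUnion fun u _ => isOpen_cyl u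
  have h1 : ∀ᶠ c in residual Re, c ∈ U → φ c := by
    have : ∀ᶠ c in residual Re, ∀ u : {u : Add1 // Frc u φ}, c ∈ cyl u.1 → φ c :=
      eventually_countable_forall.2 fun u => u.2
    filter_upwards [this] with c hc hcU
    simp only [U, mem_iUnion] at hcU
    obtain ⟨u, hu, hcu⟩ := hcU
    exact hc ⟨u, hu⟩ hcu
  have h2 : ∀ᶠ c in residual Re, c ∈ cyl s → c ∈ U := by
    have hV : IsOpen (U ∪ (closure (cyl s))ᶜ) := hU.union isClosed_closure.isOpen_compl
    have hd : Dense (U ∪ (closure (cyl s))ᶜ) := by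
      rw [dense_iff_inter_open]
      intro V hVo hVne
      by_cases hc : (V ∩ cyl s).Nonempty
      · obtain ⟨t, ht, htV⟩ := exists_below hVo hc
        obtain ⟨u, hu, huφ⟩ := h t ht
        obtain ⟨c, hc⟩ := nonempty_cyl u
        exact ⟨c, htV (cyl_mono hu hc), Or.inl (mem_biUnion (show u ∈ {u | Frc u φ} from huφ) hc)⟩
      · obtain ⟨c, hcV⟩ := hVne
        refine ⟨c, hcV, Or.inr fun hcc => hc ?_⟩
        exact (mem_closure_iff.1 hcc) V hVo hcV
    filter_upwards [residual_of_dense_open hV hd] with c hc hcs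
    rcases hc with hc | hc
    · exact hc
    · exact absurd (subset_closure hcs) hc
  filter_upwards [h1, h2] with c h3 h4 h5
  exact h3 (h4 h5)

theorem frc_value {a : Re → ℕ} (ha : Measurable a) (s : Add1) :
    ∃ t ≤ s, ∃ n, Frc t fun c => a c = n := by
  by_contra hcon
  push Not at hcon
  have h1 : ∀ n, Frc s fun c => ¬ a c = n := by
    intro n
    refine frc_dense fun t ht => ?_
    obtain ⟨u, hu, h | h⟩ := frc_decide (φ := fun c => a c = n) (ha (measurableSet_singleton n)) t
    · exact absurd h (hcon u (hu.trans ht) n)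
    · exact ⟨u, hu, h⟩
  obtain ⟨c, _, hc⟩ := (Frc.all h1).exists
  exact hc _ rfl

theorem measurable_nat {a : Re → ℕ} (h : ∀ n, MeasurableSet {c | a c = n}) : Measurable a :=
  measurable_to_countable' h

theorem measurable_comp_nat {t : Re → ℕ → ℕ} {a : Re → ℕ} (ht : ∀ n, Measurable fun c => t c n)
    (ha : Measurable a) : Measurable fun c => t c (a c) := by
  refine measurable_nat fun n => ?_
  have : {c | t c (a c) = n} = ⋃ k, ({c | a c = k} ∩ {c | t c k = n}) := by
    ext c
    simp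
  rw [this]
  exact MeasurableSet.iUnion fun k => (ha (measurableSet_singleton k)).inter
    (ht k (measurableSet_singleton n))

open Classical in
/-- the least `n` with `P n`, and `0` if there is none -/
noncomputable def least (P : ℕ → Prop) : ℕ := if h : ∃ n, P n then Nat.find h else 0

theorem least_spec {P : ℕ → Prop} (h : ∃ n, P n) : P (least P) := by
  classical
  unfold least
  rw [dif_pos h]
  exact Nat.find_spec h

theorem least_le {P : ℕ → Prop} {i : ℕ} (h : P i) : least P ≤ i := by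
  classical
  unfold least
  rw [dif_pos ⟨i, h⟩]
  exact Nat.find_min' _ h

theorem measurable_least {P : Re → ℕ → Prop} (h : ∀ n, MeasurableSet {c | P c n}) :
    Measurable fun c => least (P c) := by
  classical
  refine measurable_nat fun n => ?_
  have : {c | least (P c) = n} = ({c | P c n} ∩ ⋂ k ∈ {k | k < n}, {c | P c k}ᶜ) ∪
      ((⋂ k, {c | P c k}ᶜ) ∩ {_c | n = 0}) := by
    ext c
    simp only [mem_ofPred_eq, mem_union, mem_inter_iff, mem_iInter, mem_compl_iff]
    unfold least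
    split_ifs with hex
    · rw [Nat.find_eq_iff]
      constructor
      · rintro ⟨h1, h2⟩
        exact Or.inl ⟨h1, h2⟩
      · rintro (⟨h1, h2⟩ | ⟨h1, _⟩)
        · exact ⟨h1, h2⟩
        · obtain ⟨k, hk⟩ := hex
          exact absurd hk (h1 k)
    · push Not at hex
      constructor
      · intro h1
        exact Or.inr ⟨hex, h1.symm⟩
      · rintro (⟨h1, _⟩ | ⟨_, h1⟩)
        · exact absurd h1 (hex n)
        · exact h1.symm
  rw [this]
  refine MeasurableSet.union ((h n).inter ?_) (MeasurableSet.inter ?_ (MeasurableSet.const _))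
  · exact MeasurableSet.biInter (to_countable _) fun k _ => (h k).compl
  · exact MeasurableSet.iInter fun k => (h k).compl

end Pool.Agent.W873.Kh
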