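import Mathlib
import Pool.Agent.W873.Kh.Names
import Pool.Agent.Helper669.Forcing

set_option autoImplicit false

/-!
# The forcing notion: names for Kurepa trees, and the collapse
-/

namespace Pool.Agent.W873.Kh

open Filter Topology Set Cardinal Pool.Agent.Helper669.Forcing

/-- `ω₁` -/
abbrev W : Type := (ℵ₁ : Cardinal.{0}).ord.ToType

/-- A condition: `tr c γ γ'` is the projection from the level `γ'` to the level `γ` of a tree of
height `β + 1` with levels `ℕ`, which depends on the real `c`; `f c ξ` is the node on the level `β`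
on the branch with the number `ξ ∈ A`; `E` and `g` are a condition in the Levy collapse. -/
structure Cond (I : Type) [LinearOrder I] where
  β : W
  tr : Re → W → W → ℕ → ℕ
  tr_self : ∀ c γ n, γ ≤ β → tr c γ γ n = n
  tr_comp : ∀ c γ γ' γ'' n, γ ≤ γ' → γ' ≤ γ'' → γ'' ≤ β →
    tr c γ γ' (tr c γ' γ'' n) = tr c γ γ'' n
  tr_surj : ∀ c γ γ' m, γ ≤ γ' → γ' ≤ β → ∃ n, tr c γ γ' n = m
  tr_meas : ∀ γ γ' n, γ ≤ γ' → γ' ≤ β → Measurable fun c => tr c γ γ' n
  A : Set I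
  A_cnt : A.Countable
  f : Re → I → ℕ
  f_meas : ∀ ξ, Measurable fun c => f c ξ
  f_out : ∀ c ξ, ξ ∉ A → f c ξ = 0
  E : Set (I × W)
  E_cnt : E.Countable
  g : I → W → I
  g_lt : ∀ j i, (j, i) ∈ E → g j i < j
  g_out : ∀ j i, (j, i) ∉ E → g j i = j

namespace Cond

variable {I : Type} [LinearOrder I]

theorem ext' {p q : Cond I} (h1 : p.β = q.β) (h2 : p.tr = q.tr) (h3 : p.A = q.A)
    (h4 : p.f = q.f) (h5 : p.E = q.E) (h6 : p.g = q.g) : p = q := by
  cases p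
  cases q
  simp only at h1 h2 h3 h4 h5 h6
  subst h1 h2 h3 h4 h5 h6
  rfl

/-- the order -/
structure Le (q p : Cond I) : Prop where
  β : p.β ≤ q.β
  tr : ∀ c γ γ' n, γ ≤ γ' → γ' ≤ p.β → q.tr c γ γ' n = p.tr c γ γ' n
  A : p.A ⊆ q.A
  f : ∀ ξ ∈ p.A, ∀ᶠ c in residual Re, q.tr c p.β q.β (q.f c ξ) = p.f c ξ
  E : p.E ⊆ q.E
  g : ∀ j i, (j, i) ∈ p.E → q.g j i = p.g j i

instance : Preorder (Cond I) where
  le := Le
  le_refl p := ⟨le_rfl, fun _ _ _ _ _ _ => rfl, Subset.rfl,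
    fun ξ _ => Eventually.of_forall fun c => p.tr_self c _ _ le_rfl, Subset.rfl,
    fun _ _ _ => rfl⟩
  le_trans r q p hrq hqp := by
    refine ⟨hqp.β.trans hrq.β, fun c γ γ' n h1 h2 => ?_, hqp.A.trans hrq.A, fun ξ hξ => ?_,
      hqp.E.trans hrq.E, fun j i h => ?_⟩
    · rw [hrq.tr c γ γ' n h1 (h2.trans hqp.β), hqp.tr c γ γ' n h1 h2]
    · filter_upwards [hqp.f ξ hξ, hrq.f ξ (hqp.A hξ)] with c h1 h2
      rw [← r.tr_comp c p.β q.β r.β _ hqp.β hrq.β le_rfl, h2,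
        hrq.tr c p.β q.β _ hqp.β le_rfl, h1]
    · rw [hrq.g j i (hqp.E h), hqp.g j i h]

theorem le_def {p q : Cond I} : q ≤ p ↔ Le q p := Iff.rfl

open Classical in
/-- the projection to the coordinates in `X` -/
noncomputable def pr (X : Set I) (p : Cond I) : Cond I where
  β := p.β
  tr := p.tr
  tr_self := p.tr_self
  tr_comp := p.tr_comp
  tr_surj := p.tr_surj
  tr_meas := p.tr_meas
  A := p.A ∩ X
  A_cnt := p.A_cnt.mono inter_subset_left
  f c ξ := if ξ ∈ X then p.f c ξ else 0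
  f_meas ξ := by
    by_cases h : ξ ∈ X
    · simp only [h, if_true]
      exact p.f_meas ξ
    · simp only [h, if_false]
      exact measurable_const
  f_out c ξ h := by
    split_ifs with h1
    · exact p.f_out c ξ fun h2 => h ⟨h2, h1⟩
    · rfl
  E := {e | e ∈ p.E ∧ e.1 ∈ X}
  E_cnt := p.E_cnt.mono fun _ h => h.1
  g j i := if j ∈ X then p.g j i else j
  g_lt j i h := by
    rw [if_pos h.2]
    exact p.g_lt j i h.1
  g_out j i h := by
    split_ifs with h1
    · exact p.g_out j i fun h2 => h ⟨h2, h1⟩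
    · rfl

variable {X : Set I} {p q r : Cond I}

theorem le_pr (X : Set I) (p : Cond I) : p ≤ pr X p := by
  classical
  refine ⟨le_rfl, fun _ _ _ _ _ _ => rfl, inter_subset_left, fun ξ h => ?_, fun _ h => h.1,
    fun j i h => ?_⟩
  · refine Eventually.of_forall fun c => ?_
    change p.tr c p.β p.β (p.f c ξ) = if ξ ∈ X then p.f c ξ else 0
    rw [if_pos h.2, p.tr_self c _ _ le_rfl]
  · change p.g j i = if j ∈ X then p.g j i else j
    rw [if_pos h.2]

theorem pr_mono (h : q ≤ p) : pr X q ≤ pr X p := by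
  classical
  refine ⟨h.β, h.tr, inter_subset_inter_left _ h.A, fun ξ hξ => ?_,
    fun _ he => ⟨h.E he.1, he.2⟩, fun j i he => ?_⟩
  · filter_upwards [h.f ξ hξ.1] with c hc
    change q.tr c p.β q.β (if ξ ∈ X then q.f c ξ else 0) = if ξ ∈ X then p.f c ξ else 0
    rw [if_pos hξ.2, if_pos hξ.2]
    exact hc
  · change (if j ∈ X then q.g j i else j) = if j ∈ X then p.g j i else j
    rw [if_pos he.2, if_pos he.2]
    exact h.g j i he.1

theorem pr_pr : pr X (pr X p) = pr X p := by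
  classical
  refine ext' rfl rfl ?_ ?_ ?_ ?_
  · change p.A ∩ X ∩ X = p.A ∩ X
    rw [inter_assoc, inter_self]
  · funext c ξ
    change (if ξ ∈ X then (if ξ ∈ X then p.f c ξ else 0) else 0) = if ξ ∈ X then p.f c ξ else 0
    split_ifs <;> rfl
  · ext e
    change (e ∈ p.E ∧ e.1 ∈ X) ∧ e.1 ∈ X ↔ e ∈ p.E ∧ e.1 ∈ X
    tauto
  · funext j i
    change (if j ∈ X then (if j ∈ X then p.g j i else j) else j) = if j ∈ X then p.g j i else j
    split_ifs <;> rfl

/-- the least node above `m` -/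
noncomputable def up (t : Re → W → W → ℕ → ℕ) (c : Re) (γ γ' : W) (m : ℕ) : ℕ :=
  least fun n => t c γ γ' n = m

theorem tr_up (r : Cond I) (c : Re) {γ γ' : W} (h : γ ≤ γ') (h' : γ' ≤ r.β) (m : ℕ) :
    r.tr c γ γ' (up r.tr c γ γ' m) = m :=
  least_spec (P := fun n => r.tr c γ γ' n = m) (r.tr_surj c γ γ' m h h')

theorem meas_up (r : Cond I) {γ γ' : W} (h : γ ≤ γ') (h' : γ' ≤ r.β) {a : Re → ℕ}
    (ha : Measurable a) : Measurable fun c => up r.tr c γ γ' (a c) := by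
  refine measurable_least fun n => ?_
  have : {c | r.tr c γ γ' n = a c} = ⋃ k, ({c | r.tr c γ γ' n = k} ∩ {c | a c = k}) := by
    ext c
    simp only [mem_ofPred_eq, mem_iUnion, mem_inter_iff]
    constructor
    · exact fun h => ⟨_, h, rfl⟩
    · rintro ⟨k, h1, h2⟩
      rw [h1, h2]
  rw [this]
  exact MeasurableSet.iUnion fun k => ((r.tr_meas γ γ' n h h') (measurableSet_singleton k)).inter
    (ha (measurableSet_singleton k))

open Classical in
/-- the condition `p`, changed so that it looks like `r` on `X` and outside `D` -/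
noncomputable def tf (D : Set Re) (X : Set I) (p r : Cond I) (hD : MeasurableSet D)
    (hβ : p.β ≤ r.β) : Cond I where
  β := r.β
  tr := r.tr
  tr_self := r.tr_self
  tr_comp := r.tr_comp
  tr_surj := r.tr_surj
  tr_meas := r.tr_meas
  A := r.A
  A_cnt := r.A_cnt
  f c ξ := if ξ ∈ X ∨ c ∉ D ∨ ξ ∉ p.A ∨ ξ ∉ r.A then r.f c ξ else up r.tr c p.β r.β (p.f c ξ)
  f_meas ξ := by
    by_cases h : ξ ∈ X ∨ ξ ∉ p.A ∨ ξ ∉ r.A
    · have : (fun c => if ξ ∈ X ∨ c ∉ D ∨ ξ ∉ p.A ∨ ξ ∉ r.A then r.f c ξ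
          else up r.tr c p.β r.β (p.f c ξ)) = fun c => r.f c ξ := by
        funext c
        rw [if_pos (by tauto)]
      rw [this]
      exact r.f_meas ξ
    · have : (fun c => if ξ ∈ X ∨ c ∉ D ∨ ξ ∉ p.A ∨ ξ ∉ r.A then r.f c ξ
          else up r.tr c p.β r.β (p.f c ξ)) = fun c => if c ∈ D then
            up r.tr c p.β r.β (p.f c ξ) else r.f c ξ := by
        funext c
        by_cases hc : c ∈ D
        · rw [if_neg (by tauto), if_pos hc]
        · rw [if_pos (by tauto), if_neg hc]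
      rw [this]
      exact Measurable.ite hD (meas_up r hβ le_rfl (p.f_meas ξ)) (r.f_meas ξ)
  f_out c ξ h := by
    rw [if_pos (by tauto)]
    exact r.f_out c ξ h
  E := {e | (e ∈ r.E ∧ e.1 ∈ X) ∨ (e ∈ p.E ∧ e.1 ∉ X)}
  E_cnt := (r.E_cnt.union p.E_cnt).mono fun e h => by
    rcases h with h | h
    · exact Or.inl h.1
    · exact Or.inr h.1
  g j i := if j ∈ X then r.g j i else p.g j i
  g_lt j i h := by
    rcases h with h | h
    · rw [if_pos h.2]
      exact r.g_lt j i h.1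
    · rw [if_neg h.2]
      exact p.g_lt j i h.1
  g_out j i h := by
    split_ifs with h1
    · exact r.g_out j i fun h2 => h (Or.inl ⟨h2, h1⟩)
    · exact p.g_out j i fun h2 => h (Or.inr ⟨h2, h1⟩)

theorem tf_le {D : Set Re} {hD : MeasurableSet D} {hβ : p.β ≤ r.β}
    (htr : ∀ c γ γ' n, γ ≤ γ' → γ' ≤ p.β → r.tr c γ γ' n = p.tr c γ γ' n) (hA : p.A ⊆ r.A)
    (hf : ∀ ξ ∈ p.A, ∀ᶠ c in residual Re, ξ ∈ X ∨ c ∉ D → r.tr c p.β r.β (r.f c ξ) = p.f c ξ)
    (hE : ∀ j i, (j, i) ∈ p.E → j ∈ X → (j, i) ∈ r.E ∧ r.g j i = p.g j i) :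
    tf D X p r hD hβ ≤ p := by
  classical
  refine ⟨hβ, htr, hA, fun ξ hξ => ?_, fun e he => ?_, fun j i he => ?_⟩
  · filter_upwards [hf ξ hξ] with c hc
    change r.tr c p.β r.β (if ξ ∈ X ∨ c ∉ D ∨ ξ ∉ p.A ∨ ξ ∉ r.A then r.f c ξ
      else up r.tr c p.β r.β (p.f c ξ)) = p.f c ξ
    split_ifs with h
    · have h1 : ξ ∈ X ∨ c ∉ D := by
        have := hA hξ
        tauto
      exact hc h1
    · exact tr_up r c hβ le_rfl _
  · by_cases h : e.1 ∈ X
    · exact Or.inl ⟨(hE e.1 e.2 he h).1, h⟩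
    · exact Or.inr ⟨he, h⟩
  · change (if j ∈ X then r.g j i else p.g j i) = p.g j i
    split_ifs with h
    · exact (hE j i he h).2
    · rfl

theorem pr_tf {D : Set Re} {hD : MeasurableSet D} {hβ : p.β ≤ r.β} :
    pr X (tf D X p r hD hβ) = pr X r := by
  classical
  refine ext' rfl rfl rfl ?_ ?_ ?_
  · funext c ξ
    change (if ξ ∈ X then (if ξ ∈ X ∨ c ∉ D ∨ ξ ∉ p.A ∨ ξ ∉ r.A then r.f c ξ
      else up r.tr c p.β r.β (p.f c ξ)) else 0) = if ξ ∈ X then r.f c ξ else 0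
    by_cases h : ξ ∈ X
    · rw [if_pos h, if_pos h, if_pos (Or.inl h)]
    · rw [if_neg h, if_neg h]
  · ext e
    change ((e ∈ r.E ∧ e.1 ∈ X) ∨ (e ∈ p.E ∧ e.1 ∉ X)) ∧ e.1 ∈ X ↔ e ∈ r.E ∧ e.1 ∈ X
    tauto
  · funext j i
    change (if j ∈ X then (if j ∈ X then r.g j i else p.g j i) else j) =
      if j ∈ X then r.g j i else j
    by_cases h : j ∈ X
    · rw [if_pos h, if_pos h, if_pos h]
    · rw [if_neg h, if_neg h]

theorem tf_f {D : Set Re} {hD : MeasurableSet D} {hβ : p.β ≤ r.β} {c : Re} (hc : c ∉ D) (ξ : I) :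
    (tf D X p r hD hβ).f c ξ = r.f c ξ := by
  classical
  change (if ξ ∈ X ∨ c ∉ D ∨ ξ ∉ p.A ∨ ξ ∉ r.A then r.f c ξ
      else up r.tr c p.β r.β (p.f c ξ)) = r.f c ξ
  rw [if_pos (Or.inr (Or.inl hc))]

/-- `p` and `r` have the same projection to `X`, and agree outside `D`. -/
structure Agr (X : Set I) (D : Set Re) (p r : Cond I) : Prop where
  pr : pr X p = pr X r
  A : p.A = r.A
  f : ∀ c ∉ D, ∀ ξ, p.f c ξ = r.f c ξ

theorem Agr.refl (D : Set Re) (p : Cond I) : Agr X D p p := ⟨rfl, rfl, fun _ _ _ => rfl⟩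

theorem Agr.symm {D : Set Re} (h : Agr X D p r) : Agr X D r p :=
  ⟨h.pr.symm, h.A.symm, fun c hc ξ => (h.f c hc ξ).symm⟩

theorem Agr.trans {D : Set Re} (h : Agr X D p q) (h' : Agr X D q r) : Agr X D p r :=
  ⟨h.pr.trans h'.pr, h.A.trans h'.A, fun c hc ξ => (h.f c hc ξ).trans (h'.f c hc ξ)⟩

theorem Agr.mono {D D' : Set Re} (h : Agr X D p r) (hD : D ⊆ D') : Agr X D' p r :=
  ⟨h.pr, h.A, fun c hc ξ => h.f c (fun h' => hc (hD h')) ξ⟩

theorem β_of_pr (h : pr X p = pr X r) : p.β = r.β := by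
  have h1 : (pr X p).β = (pr X r).β := by rw [h]
  exact h1

theorem tr_of_pr (h : pr X p = pr X r) : p.tr = r.tr := by
  have h1 : (pr X p).tr = (pr X r).tr := by rw [h]
  exact h1

theorem f_of_pr (h : pr X p = pr X r) {ξ : I} (hξ : ξ ∈ X) (c : Re) : p.f c ξ = r.f c ξ := by
  classical
  have h1 : (pr X p).f c ξ = (pr X r).f c ξ := by rw [h]
  change (if ξ ∈ X then p.f c ξ else 0) = if ξ ∈ X then r.f c ξ else 0 at h1
  rwa [if_pos hξ, if_pos hξ] at h1

theorem A_of_pr (h : pr X p = pr X r) {ξ : I} (hξ : ξ ∈ X) : ξ ∈ p.A ↔ ξ ∈ r.A := by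
  have h1 : ξ ∈ (pr X p).A ↔ ξ ∈ (pr X r).A := by rw [h]
  constructor
  · exact fun h2 => (h1.1 ⟨h2, hξ⟩).1
  · exact fun h2 => (h1.2 ⟨h2, hξ⟩).1

theorem E_of_pr (h : pr X p = pr X r) {j : I} (hj : j ∈ X) (i : W) :
    (j, i) ∈ p.E ↔ (j, i) ∈ r.E := by
  have h1 : (j, i) ∈ (pr X p).E ↔ (j, i) ∈ (pr X r).E := by rw [h]
  constructor
  · exact fun h2 => (h1.1 ⟨h2, hj⟩).1
  · exact fun h2 => (h1.2 ⟨h2, hj⟩).1

theorem g_of_pr (h : pr X p = pr X r) {j : I} (hj : j ∈ X) (i : W) : p.g j i = r.g j i := by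
  classical
  have h1 : (pr X p).g j i = (pr X r).g j i := by rw [h]
  change (if j ∈ X then p.g j i else j) = if j ∈ X then r.g j i else j at h1
  rwa [if_pos hj, if_pos hj] at h1

/-- transfer of an extension of `m` to a condition which agrees with `m` outside `D` -/
theorem transfer {D : Set Re} (hD : MeasurableSet D) {m : Cond I} (h : Agr X D p m) (hr : r ≤ m) :
    ∃ hβ : p.β ≤ r.β, tf D X p r hD hβ ≤ p := by
  have hβ : p.β ≤ r.β := by
    rw [β_of_pr h.pr]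
    exact hr.β
  refine ⟨hβ, tf_le ?_ ?_ ?_ ?_⟩
  · rw [tr_of_pr h.pr, β_of_pr h.pr]
    exact hr.tr
  · rw [h.A]
    exact hr.A
  · intro ξ hξ
    have hξm : ξ ∈ m.A := by rwa [← h.A]
    filter_upwards [hr.f ξ hξm] with c hc h1
    rw [β_of_pr h.pr, hc]
    rcases h1 with h1 | h1
    · exact (f_of_pr h.pr h1 c).symm
    · exact (h.f c h1 ξ).symm
  · intro j i he hj
    have h1 : (j, i) ∈ m.E := (E_of_pr h.pr hj i).1 he
    exact ⟨hr.E h1, by rw [hr.g j i h1, g_of_pr h.pr hj i]⟩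

theorem agr_tf {D : Set Re} {hD : MeasurableSet D} {hβ : p.β ≤ r.β} :
    Agr X D (tf D X p r hD hβ) r :=
  ⟨pr_tf, rfl, fun _ hc ξ => tf_f hc ξ⟩

/-- enlarging the set of branches -/
def addA (p : Cond I) (S : Set I) (hS : S.Countable) : Cond I where
  β := p.β
  tr := p.tr
  tr_self := p.tr_self
  tr_comp := p.tr_comp
  tr_surj := p.tr_surj
  tr_meas := p.tr_meas
  A := p.A ∪ S
  A_cnt := p.A_cnt.union hS
  f := p.f
  f_meas := p.f_meas
  f_out c ξ h := p.f_out c ξ fun h1 => h (Or.inl h1)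
  E := p.E
  E_cnt := p.E_cnt
  g := p.g
  g_lt := p.g_lt
  g_out := p.g_out

theorem addA_le (p : Cond I) (S : Set I) (hS : S.Countable) : p.addA S hS ≤ p :=
  ⟨le_rfl, fun _ _ _ _ _ _ => rfl, subset_union_left,
    fun ξ _ => Eventually.of_forall fun c => p.tr_self c _ _ le_rfl, Subset.rfl, fun _ _ _ => rfl⟩

theorem pr_addA (p : Cond I) (S : Set I) (hS : S.Countable) (h : Disjoint S X) :
    pr X (p.addA S hS) = pr X p := by
  refine ext' rfl rfl ?_ rfl rfl rfl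
  change (p.A ∪ S) ∩ X = p.A ∩ X
  rw [union_inter_distrib_right, h.inter_eq, union_empty]

/-- amalgamation -/
theorem exists_am (X : Set I) (p q : Cond I) (h : q ≤ pr X p) :
    ∃ r, r ≤ p ∧ pr X r = pr X q := by
  classical
  have hS : (p.A \ X).Countable := p.A_cnt.mono sdiff_subset
  have hβ : p.β ≤ (q.addA (p.A \ X) hS).β := h.β
  refine ⟨tf univ X p (q.addA (p.A \ X) hS) MeasurableSet.univ hβ, ?_, ?_⟩
  · refine tf_le h.tr ?_ ?_ ?_
    · intro ξ hξ
      by_cases h1 : ξ ∈ X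
      · exact Or.inl (h.A ⟨hξ, h1⟩)
      · exact Or.inr ⟨hξ, h1⟩
    · intro ξ hξ
      by_cases h1 : ξ ∈ X
      · filter_upwards [h.f ξ ⟨hξ, h1⟩] with c hc _
        change q.tr c p.β q.β (q.f c ξ) = if ξ ∈ X then p.f c ξ else 0 at hc
        rwa [if_pos h1] at hc
      · refine Eventually.of_forall fun c h2 => ?_
        rcases h2 with h2 | h2
        · exact absurd h2 h1
        · exact absurd (mem_univ c) h2
    · intro j i he hj
      have h1 := h.g j i ⟨he, hj⟩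
      change q.g j i = if j ∈ X then p.g j i else j at h1
      rw [if_pos hj] at h1
      exact ⟨h.E ⟨he, hj⟩, h1⟩
  · rw [pr_tf, pr_addA]
    exact disjoint_sdiff_left

open Classical in
/-- `r'` on `D`, `r` outside -/
noncomputable def mix (D : Set Re) (hD : MeasurableSet D) (r r' : Cond I) (hA : r.A = r'.A) :
    Cond I where
  β := r.β
  tr := r.tr
  tr_self := r.tr_self
  tr_comp := r.tr_comp
  tr_surj := r.tr_surj
  tr_meas := r.tr_meas
  A := r.A
  A_cnt := r.A_cnt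
  f c ξ := if c ∈ D then r'.f c ξ else r.f c ξ
  f_meas ξ := Measurable.ite hD (r'.f_meas ξ) (r.f_meas ξ)
  f_out c ξ h := by
    split_ifs
    · exact r'.f_out c ξ (hA ▸ h)
    · exact r.f_out c ξ h
  E := r.E
  E_cnt := r.E_cnt
  g := r.g
  g_lt := r.g_lt
  g_out := r.g_out

theorem mix_le {D : Set Re} {hD : MeasurableSet D} {r' : Cond I} {hA : r.A = r'.A}
    (hpr : pr X r = pr X r') (h : r ≤ p) (h' : r' ≤ p) : mix D hD r r' hA ≤ p := by
  classical
  refine ⟨h.β, h.tr, h.A, fun ξ hξ => ?_, h.E, h.g⟩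
  filter_upwards [h.f ξ hξ, h'.f ξ hξ] with c h1 h2
  change r.tr c p.β r.β (if c ∈ D then r'.f c ξ else r.f c ξ) = p.f c ξ
  rw [← β_of_pr hpr, ← tr_of_pr hpr] at h2
  split_ifs
  · exact h2
  · exact h1

theorem pr_mix {D : Set Re} {hD : MeasurableSet D} {r' : Cond I} {hA : r.A = r'.A}
    (hpr : pr X r = pr X r') : pr X (mix D hD r r' hA) = pr X r := by
  classical
  refine ext' rfl rfl rfl ?_ rfl rfl
  funext c ξ
  change (if ξ ∈ X then (if c ∈ D then r'.f c ξ else r.f c ξ) else 0) =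
    if ξ ∈ X then r.f c ξ else 0
  by_cases h : ξ ∈ X
  · rw [if_pos h, if_pos h, f_of_pr hpr h c]
    split_ifs <;> rfl
  · rw [if_neg h, if_neg h]

theorem mix_agr_left {D : Set Re} {hD : MeasurableSet D} {r' : Cond I} {hA : r.A = r'.A}
    (hpr : pr X r = pr X r') : Agr X D (mix D hD r r' hA) r := by
  classical
  refine ⟨pr_mix hpr, rfl, fun c hc ξ => ?_⟩
  change (if c ∈ D then r'.f c ξ else r.f c ξ) = r.f c ξ
  rw [if_neg hc]

theorem mix_agr_right {D D' : Set Re} {hD : MeasurableSet D} {r' : Cond I} {hA : r.A = r'.A}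
    (h : Agr X (D ∪ D') r r') : Agr X D' (mix D hD r r' hA) r' := by
  classical
  refine ⟨(pr_mix h.pr).trans h.pr, h.A, fun c hc ξ => ?_⟩
  change (if c ∈ D then r'.f c ξ else r.f c ξ) = r'.f c ξ
  split_ifs with h1
  · rfl
  · exact h.f c (fun h2 => h2.elim h1 hc) ξ

end Cond

end Pool.Agent.W873.Kh
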