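import Mathlib
import Pool.Agent.W873.Kh.Cond

set_option autoImplicit false

/-!
# Lower bounds of families of decreasing sequences with the same projection
-/

namespace Pool.Agent.W873.Kh

open Filter Topology Set Cardinal Pool.Agent.Helper669.Forcing

theorem W_bdd (s : Set W) (hs : s.Countable) : ∃ δ : W, ∀ x ∈ s, x < δ := by
  by_contra hcon
  push Not at hcon
  have h1 : IsCofinal s := fun β => by
    obtain ⟨x, hx, h⟩ := hcon β
    exact ⟨x, hx, h⟩
  have h2 := Order.cof_le h1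
  rw [Ordinal.cof_toType, isRegular_aleph_one.cof_ord] at h2
  exact absurd (h2.trans (mk_le_aleph0_iff.2 hs.to_subtype)) (not_le.2 aleph0_lt_aleph_one)

/-- the least strict upper bound -/
theorem exists_sup (b : ℕ → W) : ∃ δ : W, (∀ n, b n < δ) ∧ ∀ γ < δ, ∃ n, γ ≤ b n := by
  obtain ⟨δ0, h0⟩ := W_bdd (range b) (countable_range b)
  have hne : ({δ | ∀ n, b n < δ} : Set W).Nonempty := ⟨δ0, fun n => h0 _ ⟨n, rfl⟩⟩
  obtain ⟨δ, h1, h2⟩ := WellFounded.has_min (wellFounded_lt (α := W)) _ hne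
  refine ⟨δ, h1, fun γ hγ => ?_⟩
  by_contra hcon
  push Not at hcon
  exact h2 γ hcon hγ

/-- the neighbourhoods of the real `z` -/
def Dn (z : Re) (k : ℕ) : Set Re := cyl (rst z k)

theorem mem_Dn {z c : Re} {k : ℕ} : c ∈ Dn z k ↔ ∀ i < k, c i = z i := mem_cyl_rst

theorem Dn_anti {z : Re} {k l : ℕ} (h : k ≤ l) : Dn z l ⊆ Dn z k := fun _ hc =>
  mem_Dn.2 fun i hi => mem_Dn.1 hc i (hi.trans_le h)

theorem Dn_zero {z : Re} : Dn z 0 = Set.univ := by
  ext c
  simp [mem_Dn]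

theorem meas_open {U : Set Re} (hU : IsOpen U) : MeasurableSet U := hU.baireMeasurableSet

theorem meas_Dn (z : Re) (k : ℕ) : MeasurableSet (Dn z k) := meas_open (isOpen_cyl _)

theorem ae_not_mem_Dn (z : Re) : ∀ᶠ c in residual Re, ∃ k, c ∉ Dn z k := by
  have hU : IsOpen {c : Re | ∃ k, c ∉ Dn z k} := by
    have : {c : Re | ∃ k, c ∉ Dn z k} = ⋃ n, {c : Re | c n = !z n} := by
      ext c
      simp only [mem_ofPred_eq, mem_iUnion]
      constructor
      · rintro ⟨k, hk⟩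
        rw [mem_Dn] at hk
        push Not at hk
        obtain ⟨i, _, hi⟩ := hk
        exact ⟨i, by cases h : c i <;> cases h' : z i <;> simp_all⟩
      · rintro ⟨n, hn⟩
        refine ⟨n + 1, fun h => ?_⟩
        have := mem_Dn.1 h n (Nat.lt_succ_self n)
        rw [hn] at this
        simp at this
    rw [this]
    exact isOpen_iUnion fun n => isOpen_eval _ _
  refine residual_of_dense_open hU ?_
  rw [dense_iff_inter_open]
  intro V hV hne
  obtain ⟨c, hc⟩ := hne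
  obtain ⟨n, hn⟩ := exists_cyl hV hc
  let c' : Re := fun i => if i = n then !z n else c i
  refine ⟨c', hn (mem_cyl_rst.2 fun i hi => ?_), n + 1, fun h => ?_⟩
  · change (if i = n then !z n else c i) = c i
    rw [if_neg hi.ne]
  · have := mem_Dn.1 h n (Nat.lt_succ_self n)
    change (if n = n then !z n else c n) = z n at this
    simp at this

/-- the string `σ` followed by zeroes -/
def extz (σ : List Bool) : ℕ → Bool := fun i => σ.getD i false

theorem extz_ofFn (x : ℕ → Bool) (k i : ℕ) (hi : i < k) :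
    extz (List.ofFn fun j : Fin k => x j) i = x i := by
  unfold extz
  rw [List.getD_eq_getElem?_getD]
  simp [hi]

namespace Cond

variable {I : Type} [LinearOrder I]

section limit

variable (G : ℕ → Cond I) (Nf : W → ℕ)

/-- the tree below the limit level -/
noncomputable def tl (c : Re) (γ γ' : W) (n : ℕ) : ℕ := (G (Nf γ')).tr c γ γ' n

/-- the default branch above the node `m` of the level with the number `n` -/
noncomputable def dfl (n m : ℕ) : ℕ → Re → ℕ
  | 0 => fun _ => m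
  | j + 1 => fun c => up (G (n + j + 1)).tr c (G (n + j)).β (G (n + j + 1)).β (dfl n m j c)

variable {G Nf} {δ : W}

theorem G_mono (hG : ∀ n, G (n + 1) ≤ G n) {k l : ℕ} (h : k ≤ l) : G l ≤ G k := by
  induction l, h using Nat.le_induction with
  | base => exact le_rfl
  | succ l _ ih => exact (hG l).trans ih

theorem tl_eq (hG : ∀ n, G (n + 1) ≤ G n) (hN : ∀ γ < δ, γ ≤ (G (Nf γ)).β) {c : Re} {γ γ' : W}
    (h : γ ≤ γ') (h' : γ' < δ) {k : ℕ} (hk : γ' ≤ (G k).β) (n : ℕ) :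
    tl G Nf c γ γ' n = (G k).tr c γ γ' n := by
  unfold tl
  rcases le_total k (Nf γ') with h1 | h1
  · exact (G_mono hG h1).tr c γ γ' n h hk
  · exact ((G_mono hG h1).tr c γ γ' n h (hN γ' h')).symm

theorem meas_dfl (hG : ∀ n, G (n + 1) ≤ G n) (n m j : ℕ) : Measurable (dfl G n m j) := by
  induction j with
  | zero => exact measurable_const
  | succ j ih => exact meas_up (G (n + j + 1)) (hG (n + j)).β le_rfl ih

/-- the value on the level `γ` of the branch given by `v` from `n0` on -/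
noncomputable def vb (G : ℕ → Cond I) (Nf : W → ℕ) (c : Re) (n0 : ℕ) (v : ℕ → ℕ) (γ : W) : ℕ :=
  tl G Nf c γ (G (max n0 (Nf γ))).β (v (max n0 (Nf γ)))

theorem vb_eq (hG : ∀ n, G (n + 1) ≤ G n) (hN : ∀ γ < δ, γ ≤ (G (Nf γ)).β)
    (hδ : ∀ n, (G n).β < δ) {c : Re} {n0 : ℕ} {v : ℕ → ℕ}
    (hv : ∀ k ≥ n0, tl G Nf c (G k).β (G (k + 1)).β (v (k + 1)) = v k) {γ : W} (hγ : γ < δ)
    {K : ℕ} (hK : n0 ≤ K) (hK' : γ ≤ (G K).β) :
    vb G Nf c n0 v γ = tl G Nf c γ (G K).β (v K) := by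
  have key : ∀ K ≥ n0, γ ≤ (G K).β → ∀ l ≥ K,
      tl G Nf c γ (G l).β (v l) = tl G Nf c γ (G K).β (v K) := by
    intro K hK hγK l hl
    induction l, hl using Nat.le_induction with
    | base => rfl
    | succ l hl ih =>
      have hγl : γ ≤ (G l).β := hγK.trans (G_mono hG hl).β
      rw [← ih, ← hv l (hK.trans hl), tl_eq hG hN hγl (hδ l) le_rfl,
        tl_eq hG hN (hG l).β (hδ (l + 1)) le_rfl, tl_eq hG hN (hγl.trans (hG l).β)
          (hδ (l + 1)) le_rfl, ← (G (l + 1)).tr_comp c γ (G l).β (G (l + 1)).β _ hγl (hG l).β le_rfl,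
        (hG l).tr c γ (G l).β _ hγl le_rfl]
  unfold vb
  have h1 : n0 ≤ max n0 (Nf γ) := le_max_left _ _
  have h2 : γ ≤ (G (max n0 (Nf γ))).β := (hN γ hγ).trans (G_mono hG (le_max_right _ _)).β
  rcases le_total K (max n0 (Nf γ)) with h | h
  · exact key K hK hK' _ h
  · exact (key _ h1 h2 K h).symm

theorem vb_coh (hG : ∀ n, G (n + 1) ≤ G n) (hN : ∀ γ < δ, γ ≤ (G (Nf γ)).β)
    (hδ : ∀ n, (G n).β < δ) {c : Re} {n0 : ℕ} {v : ℕ → ℕ}
    (hv : ∀ k ≥ n0, tl G Nf c (G k).β (G (k + 1)).β (v (k + 1)) = v k) {γ γ' : W} (h : γ ≤ γ')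
    (h' : γ' < δ) : tl G Nf c γ γ' (vb G Nf c n0 v γ') = vb G Nf c n0 v γ := by
  let K := max n0 (Nf γ')
  have h1 : γ' ≤ (G K).β := (hN γ' h').trans (G_mono hG (le_max_right _ _)).β
  rw [vb_eq hG hN hδ hv h' (le_max_left _ _ : n0 ≤ K) h1,
    vb_eq hG hN hδ hv (h.trans_lt h') (le_max_left _ _ : n0 ≤ K) (h.trans h1),
    tl_eq hG hN h h' h1, tl_eq hG hN h1 (hδ K) le_rfl, tl_eq hG hN (h.trans h1) (hδ K) le_rfl,
    (G K).tr_comp c γ γ' (G K).β _ h h1 le_rfl]

theorem dfl_coh (hG : ∀ n, G (n + 1) ≤ G n) (hN : ∀ γ < δ, γ ≤ (G (Nf γ)).β)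
    (hδ : ∀ n, (G n).β < δ) (c : Re) (n m : ℕ) :
    ∀ k ≥ n, tl G Nf c (G k).β (G (k + 1)).β (dfl G n m (k + 1 - n) c) = dfl G n m (k - n) c := by
  intro k hk
  obtain ⟨j, rfl⟩ := Nat.exists_eq_add_of_le hk
  have h1 : n + j + 1 - n = j + 1 := by omega
  have h2 : n + j - n = j := by omega
  rw [h1, h2, tl_eq hG hN (hG (n + j)).β (hδ _) le_rfl]
  exact tr_up (G (n + j + 1)) c (hG (n + j)).β le_rfl _

theorem meas_tl (hN : ∀ γ < δ, γ ≤ (G (Nf γ)).β) {γ γ' : W} (h : γ ≤ γ') (h' : γ' < δ) (n : ℕ) :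
    Measurable fun c => tl G Nf c γ γ' n :=
  (G (Nf γ')).tr_meas γ γ' n h (hN γ' h')

open Classical in
/-- the branch through the nodes `v`, if they are coherent -/
noncomputable def br (G : ℕ → Cond I) (Nf : W → ℕ) (n0 : ℕ) (v : ℕ → Re → ℕ) (c : Re) (γ : W) :
    ℕ :=
  if ∀ k ≥ n0, tl G Nf c (G k).β (G (k + 1)).β (v (k + 1) c) = v k c then
    vb G Nf c n0 (fun k => v k c) γ
  else vb G Nf c 0 (fun k => dfl G 0 0 k c) γ

theorem br_coh (hG : ∀ n, G (n + 1) ≤ G n) (hN : ∀ γ < δ, γ ≤ (G (Nf γ)).β)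
    (hδ : ∀ n, (G n).β < δ) {n0 : ℕ} {v : ℕ → Re → ℕ} {c : Re} {γ γ' : W} (h : γ ≤ γ')
    (h' : γ' < δ) : tl G Nf c γ γ' (br G Nf n0 v c γ') = br G Nf n0 v c γ := by
  unfold br
  split_ifs with h1
  · exact vb_coh hG hN hδ h1 h h'
  · exact vb_coh hG hN hδ (dfl_coh hG hN hδ c 0 0) h h'

theorem br_eq (hG : ∀ n, G (n + 1) ≤ G n) (hN : ∀ γ < δ, γ ≤ (G (Nf γ)).β)
    (hδ : ∀ n, (G n).β < δ) {n0 : ℕ} {v : ℕ → Re → ℕ} {c : Re}
    (hv : ∀ k ≥ n0, tl G Nf c (G k).β (G (k + 1)).β (v (k + 1) c) = v k c) {k : ℕ} (hk : n0 ≤ k) :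
    br G Nf n0 v c (G k).β = v k c := by
  unfold br
  rw [if_pos hv, vb_eq hG hN hδ hv (hδ k) hk le_rfl, tl_eq hG hN le_rfl (hδ k) le_rfl]
  exact (G k).tr_self c _ _ le_rfl

theorem meas_br (hG : ∀ n, G (n + 1) ≤ G n) (hN : ∀ γ < δ, γ ≤ (G (Nf γ)).β)
    (hδ : ∀ n, (G n).β < δ) {n0 : ℕ} {v : ℕ → Re → ℕ} (hv : ∀ k, Measurable (v k)) {γ : W}
    (hγ : γ < δ) : Measurable fun c => br G Nf n0 v c γ := by
  have key : ∀ (n0 : ℕ) (v : ℕ → Re → ℕ), (∀ k, Measurable (v k)) →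
      Measurable fun c => vb G Nf c n0 (fun k => v k c) γ := by
    intro n0 v hv
    have h2 : γ ≤ (G (max n0 (Nf γ))).β := (hN γ hγ).trans (G_mono hG (le_max_right _ _)).β
    exact measurable_comp_nat (fun n => meas_tl hN h2 (hδ _) n) (hv _)
  unfold br
  refine Measurable.ite ?_ (key n0 v hv) (key 0 (fun k => dfl G 0 0 k) fun k => meas_dfl hG 0 0 k)
  have : {c | ∀ k ≥ n0, tl G Nf c (G k).β (G (k + 1)).β (v (k + 1) c) = v k c} =
      ⋂ k ∈ {k | k ≥ n0}, ⋃ m, ({c | tl G Nf c (G k).β (G (k + 1)).β (v (k + 1) c) = m} ∩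
        {c | v k c = m}) := by
    ext c
    simp only [mem_ofPred_eq, mem_iInter, mem_iUnion, mem_inter_iff]
    constructor
    · intro h k hk
      exact ⟨_, h k hk, rfl⟩
    · intro h k hk
      obtain ⟨m, h1, h2⟩ := h k hk
      rw [h1, h2]
  rw [this]
  refine MeasurableSet.biInter (to_countable _) fun k _ => MeasurableSet.iUnion fun m => ?_
  exact ((measurable_comp_nat (fun n => meas_tl hN (hG k).β (hδ _) n) (hv _))
    (measurableSet_singleton m)).inter ((hv k) (measurableSet_singleton m))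

end limit

open Classical in
/-- The limit theorem. -/
theorem exists_limit (X : Set I) (z : Re) (F : ℕ → (ℕ → Bool) → Cond I)
    (h1 : ∀ n x, F (n + 1) x ≤ F n x)
    (h2 : ∀ n k x y, (∀ i < k, x i = y i) → Agr X (Dn z k) (F n x) (F n y)) :
    ∃ p : (ℕ → Bool) → Cond I, (∀ n x, p x ≤ F n x) ∧ ∀ x y, pr X (p x) = pr X (p y) := by
  let o : ℕ → Bool := fun _ => false
  let G : ℕ → Cond I := fun n => F n o
  have hG : ∀ n, G (n + 1) ≤ G n := fun n => h1 n o
  have h20 : ∀ n x y, Agr X (Dn z 0) (F n x) (F n y) := fun n x y =>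
    h2 n 0 x y fun i hi => absurd hi (Nat.not_lt_zero i)
  have hFβ : ∀ n x, (F n x).β = (G n).β := fun n x => β_of_pr (h20 n x o).pr
  have hFtr : ∀ n x, (F n x).tr = (G n).tr := fun n x => tr_of_pr (h20 n x o).pr
  have hFA : ∀ n x, (F n x).A = (G n).A := fun n x => (h20 n x o).A
  have hFm : ∀ x, ∀ k l : ℕ, k ≤ l → F l x ≤ F k x := by
    intro x k l h
    exact G_mono (G := fun n => F n x) (fun n => h1 n x) h
  obtain ⟨δ, hδ, hδ'⟩ := exists_sup fun n => (G n).β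
  have hN0 : ∀ γ : W, ∃ n, γ < δ → γ ≤ (G n).β := by
    intro γ
    by_cases h : γ < δ
    · obtain ⟨n, hn⟩ := hδ' γ h
      exact ⟨n, fun _ => hn⟩
    · exact ⟨0, fun h' => absurd h' h⟩
  choose Nf hN using hN0
  let A : Set I := ⋃ n, (G n).A
  have hA : A.Countable := countable_iUnion fun n => (G n).A_cnt
  let Y : Type := (A × List Bool) ⊕ (ℕ × ℕ)
  have : Countable A := hA.to_subtype
  have : Countable Y := inferInstanceAs (Countable ((A × List Bool) ⊕ (ℕ × ℕ)))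
  have : Nonempty Y := ⟨Sum.inr (0, 0)⟩
  obtain ⟨e, he⟩ := exists_surjective_nat Y
  let idx : Y → ℕ := Function.surjInv he
  have hidx : ∀ y, e (idx y) = y := Function.surjInv_eq he
  let st : Y → ℕ := fun y => match y with
    | Sum.inl (ξ, _) => least fun n => ξ.1 ∈ (G n).A
    | Sum.inr (n, _) => n
  let vl : Y → ℕ → Re → ℕ := fun y => match y with
    | Sum.inl (ξ, σ) => fun k c => (F k (extz σ)).f c ξ.1
    | Sum.inr (n, m) => fun k => dfl G n m (k - n)
  have hvl : ∀ y k, Measurable (vl y k) := by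
    rintro (⟨ξ, σ⟩ | ⟨n, m⟩) k
    · exact (F k (extz σ)).f_meas ξ.1
    · exact meas_dfl hG n m _
  let BR : Y → Re → W → ℕ := fun y => br G Nf (st y) (vl y)
  -- the branch with the number `ξ`
  have hst : ∀ ξ : A, ∀ n, ξ.1 ∈ (G n).A → least (fun n => ξ.1 ∈ (G n).A) ≤ n := by
    intro ξ n hn
    unfold least
    rw [dif_pos ⟨n, hn⟩]
    exact Nat.find_min' _ hn
  have hst' : ∀ ξ : A, ξ.1 ∈ (G (least fun n => ξ.1 ∈ (G n).A)).A := by
    intro ξ
    obtain ⟨n, hn⟩ := mem_iUnion.1 ξ.2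
    exact least_spec (P := fun n => ξ.1 ∈ (G n).A) ⟨n, hn⟩
  have hae : ∀ (ξ : A) (σ : List Bool), ∀ᶠ c in residual Re, ∀ n, ξ.1 ∈ (G n).A →
      BR (Sum.inl (ξ, σ)) c (G n).β = (F n (extz σ)).f c ξ.1 := by
    intro ξ σ
    have h3 : ∀ᶠ c in residual Re, ∀ k, k ≥ (least fun n => ξ.1 ∈ (G n).A) →
        (F (k + 1) (extz σ)).tr c (F k (extz σ)).β (F (k + 1) (extz σ)).β
          ((F (k + 1) (extz σ)).f c ξ.1) = (F k (extz σ)).f c ξ.1 := by
      rw [eventually_countable_forall]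
      intro k
      by_cases hk : k ≥ (least fun n => ξ.1 ∈ (G n).A)
      · have h4 : ξ.1 ∈ (F k (extz σ)).A := by
          rw [hFA]
          exact (G_mono hG hk).A (hst' ξ)
        filter_upwards [(h1 k (extz σ)).f ξ.1 h4] with c hc _
        exact hc
      · exact Eventually.of_forall fun c h => absurd h hk
    filter_upwards [h3] with c hc n hn
    refine br_eq hG (fun γ hγ => hN γ hγ) hδ ?_ (hst ξ n hn)
    intro k hk
    have := hc k hk
    rw [hFβ k (extz σ), hFβ (k + 1) (extz σ), hFtr] at this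
    rw [tl_eq hG (fun γ hγ => hN γ hγ) (hG k).β (hδ _) le_rfl]
    exact this
  -- the limit tree
  let tr : Re → W → W → ℕ → ℕ := fun c γ γ' n =>
    if γ' < δ then tl G Nf c γ γ' n else if γ < δ then BR (e n) c γ else n
  have tr_lt : ∀ c γ γ' n, γ' < δ → tr c γ γ' n = tl G Nf c γ γ' n := fun c γ γ' n h => if_pos h
  have tr_top : ∀ c γ n, γ < δ → tr c γ δ n = BR (e n) c γ := fun c γ n h => by
    change (if δ < δ then _ else if γ < δ then _ else _) = _
    rw [if_neg (lt_irrefl δ), if_pos h]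
  have tr_dd : ∀ c n, tr c δ δ n = n := fun c n => by
    change (if δ < δ then _ else if δ < δ then _ else _) = _
    rw [if_neg (lt_irrefl δ), if_neg (lt_irrefl δ)]
  have tr_self : ∀ c γ n, γ ≤ δ → tr c γ γ n = n := by
    intro c γ n h
    rcases h.lt_or_eq with h | rfl
    · rw [tr_lt c γ γ n h]
      exact (G (Nf γ)).tr_self c γ n (hN γ h)
    · exact tr_dd c n
  have tr_comp : ∀ c γ γ' γ'' n, γ ≤ γ' → γ' ≤ γ'' → γ'' ≤ δ →
      tr c γ γ' (tr c γ' γ'' n) = tr c γ γ'' n := by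
    intro c γ γ' γ'' n h3 h4 h5
    rcases h5.lt_or_eq with h5 | rfl
    · rw [tr_lt c γ γ'' n h5, tr_lt c γ' γ'' n h5, tr_lt c γ γ' _ (h4.trans_lt h5),
        tl_eq hG (fun γ hγ => hN γ hγ) h3 (h4.trans_lt h5) (h4.trans (hN γ'' h5))]
      exact (G (Nf γ'')).tr_comp c γ γ' γ'' n h3 h4 (hN γ'' h5)
    · rcases h4.lt_or_eq with h4 | rfl
      · rw [tr_top c γ' n h4, tr_top c γ n (h3.trans_lt h4), tr_lt c γ γ' _ h4]
        exact br_coh hG (fun γ hγ => hN γ hγ) hδ h3 h4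
      · rw [tr_dd]
  have tr_ext : ∀ n c γ γ' m, γ ≤ γ' → γ' ≤ (G n).β → tr c γ γ' m = (G n).tr c γ γ' m := by
    intro n c γ γ' m h3 h4
    rw [tr_lt c γ γ' m (h4.trans_lt (hδ n))]
    exact tl_eq hG (fun γ hγ => hN γ hγ) h3 (h4.trans_lt (hδ n)) h4 m
  have tr_surj : ∀ c γ γ' m, γ ≤ γ' → γ' ≤ δ → ∃ n, tr c γ γ' n = m := by
    intro c γ γ' m h3 h4
    rcases h4.lt_or_eq with h4 | rfl
    · obtain ⟨n, hn⟩ := (G (Nf γ')).tr_surj c γ γ' m h3 (hN γ' h4)
      exact ⟨n, by rw [tr_lt c γ γ' n h4]; exact hn⟩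
    · rcases h3.lt_or_eq with h3 | rfl
      · obtain ⟨m', hm'⟩ := (G (Nf γ)).tr_surj c γ (G (Nf γ)).β m (hN γ h3) le_rfl
        refine ⟨idx (Sum.inr (Nf γ, m')), ?_⟩
        rw [tr_top c γ _ h3, hidx]
        have h5 : BR (Sum.inr (Nf γ, m')) c (G (Nf γ)).β = m' := by
          have h6 := br_eq (n0 := Nf γ) (v := fun k => dfl G (Nf γ) m' (k - Nf γ)) (c := c) hG
            (fun γ hγ => hN γ hγ) hδ (dfl_coh hG (fun γ hγ => hN γ hγ) hδ c (Nf γ) m')
            (le_refl (Nf γ))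
          change br G Nf (Nf γ) (fun k => dfl G (Nf γ) m' (k - Nf γ)) c (G (Nf γ)).β = m'
          rw [h6, Nat.sub_self]
          rfl
        have h7 : tl G Nf c γ (G (Nf γ)).β (BR (Sum.inr (Nf γ, m')) c (G (Nf γ)).β) =
            BR (Sum.inr (Nf γ, m')) c γ := br_coh hG (fun γ hγ => hN γ hγ) hδ (hN γ h3) (hδ _)
        rw [← h7, h5, tl_eq hG (fun γ hγ => hN γ hγ) (hN γ h3) (hδ _) le_rfl]
        exact hm'
      · exact ⟨m, tr_dd c m⟩
  have tr_meas : ∀ γ γ' n, γ ≤ γ' → γ' ≤ δ → Measurable fun c => tr c γ γ' n := by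
    intro γ γ' n h3 h4
    rcases h4.lt_or_eq with h4 | rfl
    · have : (fun c => tr c γ γ' n) = fun c => tl G Nf c γ γ' n := by
        funext c
        exact tr_lt c γ γ' n h4
      rw [this]
      exact meas_tl (fun γ hγ => hN γ hγ) h3 h4 n
    · rcases h3.lt_or_eq with h3 | rfl
      · have : (fun c => tr c γ γ' n) = fun c => BR (e n) c γ := by
          funext c
          exact tr_top c γ n h3
        rw [this]
        exact meas_br hG (fun γ hγ => hN γ hγ) hδ (hvl _) h3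
      · have : (fun c => tr c γ γ n) = fun _ => n := by
          funext c
          exact tr_dd c n
        rw [this]
        exact measurable_const
  -- the branches
  let kk : Re → ℕ := fun c => least fun k => c ∉ Dn z k
  have hkk : Measurable kk := measurable_least fun k => (meas_Dn z k).compl
  let nd : (ℕ → Bool) → Re → A → ℕ := fun x c ξ =>
    if ξ.1 ∈ X then idx (Sum.inl (ξ, [])) else
      idx (Sum.inl (ξ, List.ofFn fun j : Fin (kk c) => x j))
  have hnd : ∀ x ξ, Measurable fun c => nd x c ξ := by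
    intro x ξ
    by_cases h : ξ.1 ∈ X
    · have : (fun c => nd x c ξ) = fun _ => idx (Sum.inl (ξ, [])) := by
        funext c
        exact if_pos h
      rw [this]
      exact measurable_const
    · have : (fun c => nd x c ξ) = (fun k : ℕ => idx (Sum.inl (ξ, List.ofFn fun j : Fin k => x j)))
          ∘ kk := by
        funext c
        exact if_neg h
      rw [this]
      exact (measurable_from_nat).comp hkk
  let gx : (ℕ → Bool) → I → W → I := fun x j i =>
    if ∃ n, (j, i) ∈ (F n x).E then (F (least fun n => (j, i) ∈ (F n x).E) x).g j i else j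
  have hgx : ∀ x j i n, (j, i) ∈ (F n x).E → gx x j i = (F n x).g j i := by
    intro x j i n hn
    have h3 : ∃ n, (j, i) ∈ (F n x).E := ⟨n, hn⟩
    have h4 := least_spec (P := fun n => (j, i) ∈ (F n x).E) h3
    change (if ∃ n, (j, i) ∈ (F n x).E then (F (least fun n => (j, i) ∈ (F n x).E) x).g j i
      else j) = _
    rw [if_pos h3]
    rcases le_total (least fun n => (j, i) ∈ (F n x).E) n with h5 | h5
    · exact ((hFm x _ _ h5).g j i h4).symm
    · exact (hFm x _ _ h5).g j i hn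
  let p : (ℕ → Bool) → Cond I := fun x =>
    { β := δ
      tr := tr
      tr_self := tr_self
      tr_comp := tr_comp
      tr_surj := tr_surj
      tr_meas := tr_meas
      A := A
      A_cnt := hA
      f := fun c ξ => if h : ξ ∈ A then nd x c ⟨ξ, h⟩ else 0
      f_meas := fun ξ => by
        by_cases h : ξ ∈ A
        · simp only [h, dif_pos]
          exact hnd x ⟨ξ, h⟩
        · simp only [h, dif_neg, not_false_eq_true]
          exact measurable_const
      f_out := fun c ξ h => dif_neg h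
      E := ⋃ n, (F n x).E
      E_cnt := countable_iUnion fun n => (F n x).E_cnt
      g := gx x
      g_lt := fun j i h => by
        obtain ⟨n, hn⟩ := mem_iUnion.1 h
        rw [hgx x j i n hn]
        exact (F n x).g_lt j i hn
      g_out := fun j i h => by
        refine if_neg ?_
        rintro ⟨n, hn⟩
        exact h (mem_iUnion.2 ⟨n, hn⟩) }
  refine ⟨p, fun n x => ?_, fun x y => ?_⟩
  · refine ⟨?_, ?_, ?_, ?_, ?_, ?_⟩
    · rw [hFβ]
      exact (hδ n).le
    · intro c γ γ' m h3 h4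
      rw [hFβ] at h4
      rw [hFtr]
      exact tr_ext n c γ γ' m h3 h4
    · rw [hFA]
      exact subset_iUnion (fun n => (G n).A) n
    · intro ξ hξ
      have hξG : ξ ∈ (G n).A := by rwa [← hFA n x]
      have hξA : ξ ∈ A := mem_iUnion.2 ⟨n, hξG⟩
      have h3 : ∀ᶠ c in residual Re, ∀ σ : List Bool, ∀ n, ξ ∈ (G n).A →
          BR (Sum.inl (⟨ξ, hξA⟩, σ)) c (G n).β = (F n (extz σ)).f c ξ := by
        rw [eventually_countable_forall]
        exact fun σ => hae ⟨ξ, hξA⟩ σ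
      filter_upwards [h3, ae_not_mem_Dn z] with c hc hcz
      change tr c (F n x).β δ (if h : ξ ∈ A then nd x c ⟨ξ, h⟩ else 0) = (F n x).f c ξ
      rw [dif_pos hξA, hFβ, tr_top c _ _ (hδ n)]
      by_cases hX : ξ ∈ X
      · have h4 : nd x c ⟨ξ, hξA⟩ = idx (Sum.inl (⟨ξ, hξA⟩, [])) := if_pos hX
        rw [h4, hidx, hc [] n hξG]
        exact f_of_pr (h20 n _ _).pr hX c
      · have h4 : nd x c ⟨ξ, hξA⟩ =
            idx (Sum.inl (⟨ξ, hξA⟩, List.ofFn fun j : Fin (kk c) => x j)) := if_neg hX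
        rw [h4, hidx, hc _ n hξG]
        have h5 : c ∉ Dn z (kk c) := least_spec (P := fun k => c ∉ Dn z k) hcz
        exact (h2 n (kk c) _ x fun i hi => extz_ofFn x (kk c) i hi).f c h5 ξ
    · exact subset_iUnion (fun n => (F n x).E) n
    · intro j i h
      exact hgx x j i n h
  · refine ext' rfl rfl rfl ?_ ?_ ?_
    · funext c ξ
      change (if ξ ∈ X then (if h : ξ ∈ A then nd x c ⟨ξ, h⟩ else 0) else 0) =
        if ξ ∈ X then (if h : ξ ∈ A then nd y c ⟨ξ, h⟩ else 0) else 0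
      by_cases hX : ξ ∈ X
      · rw [if_pos hX, if_pos hX]
        by_cases hA' : ξ ∈ A
        · rw [dif_pos hA', dif_pos hA']
          exact (if_pos hX : nd x c ⟨ξ, hA'⟩ = idx (Sum.inl (⟨ξ, hA'⟩, []))).trans
            (if_pos hX : nd y c ⟨ξ, hA'⟩ = idx (Sum.inl (⟨ξ, hA'⟩, []))).symm
        · rw [dif_neg hA', dif_neg hA']
      · rw [if_neg hX, if_neg hX]
    · ext ⟨j, i⟩
      change ((j, i) ∈ ⋃ n, (F n x).E) ∧ j ∈ X ↔ ((j, i) ∈ ⋃ n, (F n y).E) ∧ j ∈ X
      constructor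
      · rintro ⟨h3, h4⟩
        obtain ⟨n, hn⟩ := mem_iUnion.1 h3
        exact ⟨mem_iUnion.2 ⟨n, (E_of_pr (h20 n x y).pr h4 i).1 hn⟩, h4⟩
      · rintro ⟨h3, h4⟩
        obtain ⟨n, hn⟩ := mem_iUnion.1 h3
        exact ⟨mem_iUnion.2 ⟨n, (E_of_pr (h20 n x y).pr h4 i).2 hn⟩, h4⟩
    · funext j i
      change (if j ∈ X then gx x j i else j) = if j ∈ X then gx y j i else j
      by_cases hX : j ∈ X
      · rw [if_pos hX, if_pos hX]
        by_cases hex : ∃ n, (j, i) ∈ (F n x).E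
        · obtain ⟨n, hn⟩ := hex
          rw [hgx x j i n hn, hgx y j i n ((E_of_pr (h20 n x y).pr hX i).1 hn)]
          exact g_of_pr (h20 n x y).pr hX i
        · have hex' : ¬ ∃ n, (j, i) ∈ (F n y).E := by
            rintro ⟨n, hn⟩
            exact hex ⟨n, (E_of_pr (h20 n x y).pr hX i).2 hn⟩
          exact (if_neg hex : gx x j i = j).trans (if_neg hex' : gx y j i = j).symm
      · rw [if_neg hX, if_neg hX]

/-- `σ`-closure -/
theorem exists_lower (G : ℕ → Cond I) (hG : ∀ n, G (n + 1) ≤ G n) : ∃ p, ∀ n, p ≤ G n := by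
  obtain ⟨p, hp, _⟩ := exists_limit (∅ : Set I) (Classical.arbitrary Re) (fun n _ => G n)
    (fun n _ => hG n) fun n k x y _ => Agr.refl _ _
  exact ⟨p fun _ => false, fun n => hp n _⟩

end Cond

end Pool.Agent.W873.Kh
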