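import Mathlib
import Pool.Agent.W873.Kh.Limit
import Pool.Agent.W873.Gmp.Final

set_option autoImplicit false

/-!
# No new branches
-/

namespace Pool.Agent.W873.Kh

open Filter Topology Set Cardinal Pool.Agent.Helper669.Forcing

namespace Cond

variable {I : Type} [LinearOrder I] {L : Type} {X : Set I} {B : L → Set (Cond I)}
  {p q r : Cond I}

theorem fnot_dn {P : Type} [Preorder P] {N : Set P} {p q : P} (h : p ∈ fnot N) (hq : q ≤ p) :
    q ∈ fnot N := down_fnot N p h q hq

theorem meets_dn {P : Type} [Preorder P] {N : Set P} {p q : P} (h : p ∈ meets N) (hq : q ≤ p) :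
    q ∈ meets N := down_meets N p h q hq

theorem exists_dec {P : Type} [Preorder P] (N : Set P) (p : P) :
    ∃ q ≤ p, q ∈ meets N ∨ q ∈ fnot (meets N) := by
  by_cases h : ∃ q ≤ p, q ∈ meets N
  · obtain ⟨q, hq, h⟩ := h
    exact ⟨q, hq, Or.inl h⟩
  · push Not at h
    exact ⟨p, le_rfl, Or.inr h⟩

/-- differences inside `D` can change the branch `B` -/
def Matter (X : Set I) (D : Set Re) (B : L → Set (Cond I)) (p : Cond I) : Prop :=
  ∃ r r', r ≤ p ∧ r' ≤ p ∧ Agr X D r r' ∧ ∃ u, r ∈ meets (B u) ∧ r' ∈ fnot (meets (B u))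

theorem Matter.mono {D : Set Re} (h : Matter X D B q) (hq : q ≤ p) : Matter X D B p := by
  obtain ⟨r, r', h1, h2, h3⟩ := h
  exact ⟨r, r', h1.trans hq, h2.trans hq, h3⟩

theorem Matter.split {D D' : Set Re} (hD : MeasurableSet D) (hD' : MeasurableSet D')
    (h : Matter X (D ∪ D') B p) : Matter X D B p ∨ Matter X D' B p := by
  obtain ⟨r, r', h1, h2, h3, u, h4, h5⟩ := h
  have hm := mix_le (hD := hD) (hA := h3.A) h3.pr h1 h2
  obtain ⟨m', hm', h6 | h6⟩ := exists_dec (B u) (mix D hD r r' h3.A)
  · obtain ⟨_, h7⟩ := transfer hD' (mix_agr_right (hD := hD) (hA := h3.A) h3).symm hm'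
    exact Or.inr ⟨m', _, hm'.trans hm, h7.trans h2, agr_tf.symm, u, h6, fnot_dn h5 h7⟩
  · obtain ⟨_, h7⟩ := transfer hD (mix_agr_left (hD := hD) (hA := h3.A) h3.pr).symm hm'
    exact Or.inl ⟨_, m', h7.trans h1, hm'.trans hm, agr_tf, u, meets_dn h4 h7, h6⟩

theorem matter_univ
    (h : ∃ r r', r ≤ p ∧ r' ≤ p ∧ pr X r = pr X r' ∧ ∃ u, r ∈ meets (B u) ∧
      r' ∈ fnot (meets (B u))) : Matter X Set.univ B p := by
  obtain ⟨r, r', h1, h2, h3, u, h4, h5⟩ := h
  have hS : (r'.A \ X).Countable := r'.A_cnt.mono sdiff_subset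
  have hS' : (r.A \ X).Countable := r.A_cnt.mono sdiff_subset
  have h6 := addA_le r (r'.A \ X) hS
  have h7 := addA_le r' (r.A \ X) hS'
  refine ⟨r.addA _ hS, r'.addA _ hS', h6.trans h1, h7.trans h2, ⟨?_, ?_, ?_⟩, u,
    meets_dn h4 h6, fnot_dn h5 h7⟩
  · rw [pr_addA _ _ _ disjoint_sdiff_left, pr_addA _ _ _ disjoint_sdiff_left, h3]
  · change r.A ∪ (r'.A \ X) = r'.A ∪ (r.A \ X)
    ext ξ
    simp only [mem_union, Set.mem_sdiff]
    by_cases hX : ξ ∈ X
    · have := A_of_pr h3 hX
      tauto
    · tauto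
  · intro c hc
    exact absurd (mem_univ c) hc

theorem exists_generic {ι : Type} [Countable ι] (q0 : Cond I) (S : ι → Set (Cond I))
    (hS : ∀ i, Down (S i)) (h : ∀ i, ∀ q ≤ q0, ∃ r ≤ q, r ∈ S i) : ∃ q ≤ q0, ∀ i, q ∈ S i := by
  rcases isEmpty_or_nonempty ι with hι | hι
  · exact ⟨q0, le_rfl, fun i => (hι.false i).elim⟩
  obtain ⟨e, he⟩ := exists_surjective_nat ι
  have hstep : ∀ (n : ℕ) (q : {q // q ≤ q0}), ∃ r : {q // q ≤ q0}, r.1 ≤ q.1 ∧ r.1 ∈ S (e n) := by
    rintro n ⟨q, hq⟩
    obtain ⟨r, hr, h1⟩ := h (e n) q hq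
    exact ⟨⟨r, hr.trans hq⟩, hr, h1⟩
  choose nx hnx1 hnx2 using hstep
  let G : ℕ → {q // q ≤ q0} := fun n => Nat.rec ⟨q0, le_rfl⟩ (fun n q => nx n q) n
  obtain ⟨p, hp⟩ := exists_lower (fun n => (G n).1) fun n => hnx1 n (G n)
  refine ⟨p, hp 0, fun i => ?_⟩
  obtain ⟨n, rfl⟩ := he i
  exact hS _ _ (hnx2 n (G n)) p (hp (n + 1))

/-- a stable condition -/
theorem exists_stable (X : Set I) (B : L → Set (Cond I)) (p : Cond I) : ∃ q ≤ p, ∀ s : Add1,
    Matter X (cyl s) B q → ∀ r ≤ q, Matter X (cyl s) B r := by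
  classical
  obtain ⟨e, he⟩ := exists_surjective_nat Add1
  have hstep : ∀ (n : ℕ) (q : Cond I), ∃ r ≤ q, Matter X (cyl (e n)) B r →
      ∀ r' ≤ q, Matter X (cyl (e n)) B r' := by
    intro n q
    by_cases h : ∃ r ≤ q, ¬ Matter X (cyl (e n)) B r
    · obtain ⟨r, hr, h1⟩ := h
      exact ⟨r, hr, fun h2 => absurd h2 h1⟩
    · push Not at h
      exact ⟨q, le_rfl, fun _ => h⟩
  choose nx hnx1 hnx2 using hstep
  let G : ℕ → Cond I := fun n => Nat.rec p (fun n q => nx n q) n
  obtain ⟨q, hq⟩ := exists_lower G fun n => hnx1 n (G n)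
  refine ⟨q, hq 0, fun s hs r hr => ?_⟩
  obtain ⟨n, rfl⟩ := he s
  exact hnx2 n (G n) (hs.mono (hq (n + 1))) r (hr.trans (hq n))

/-- a real all of whose neighbourhoods matter -/
theorem exists_real (X : Set I) (B : L → Set (Cond I)) (p : Cond I)
    (h : Matter X Set.univ B p) : ∃ z : Re, ∀ n, Matter X (Dn z n) B p := by
  classical
  have hstep : ∀ (n : ℕ) (c : {c : Re // Matter X (Dn c n) B p}),
      ∃ c' : {c : Re // Matter X (Dn c (n + 1)) B p}, ∀ i < n, c'.1 i = c.1 i := by
    rintro n ⟨c, hc⟩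
    let c0 : Bool → Re := fun b i => if i = n then b else c i
    have hc0 : ∀ b, ∀ i < n, c0 b i = c i := fun b i hi => if_neg hi.ne
    have hc0n : ∀ b, c0 b n = b := fun b => if_pos rfl
    have h1 : Dn c n = Dn (c0 false) (n + 1) ∪ Dn (c0 true) (n + 1) := by
      ext x
      simp only [mem_union, mem_Dn]
      constructor
      · intro hx
        cases hb : x n with
        | false =>
          left
          intro i hi
          rcases Nat.lt_succ_iff_lt_or_eq.1 hi with hi | rfl
          · rw [hx i hi, hc0 _ i hi]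
          · rw [hc0n, hb]
        | true =>
          right
          intro i hi
          rcases Nat.lt_succ_iff_lt_or_eq.1 hi with hi | rfl
          · rw [hx i hi, hc0 _ i hi]
          · rw [hc0n, hb]
      · rintro (hx | hx) i hi
        · rw [hx i (hi.trans (Nat.lt_succ_self n)), hc0 _ i hi]
        · rw [hx i (hi.trans (Nat.lt_succ_self n)), hc0 _ i hi]
    rw [h1] at hc
    rcases hc.split (meas_Dn _ _) (meas_Dn _ _) with h2 | h2
    · exact ⟨⟨c0 false, h2⟩, hc0 _⟩
    · exact ⟨⟨c0 true, h2⟩, hc0 _⟩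
  choose nx hnx using hstep
  have hc : Matter X (Dn (Classical.arbitrary Re) 0) B p := by
    rw [Dn_zero]
    exact h
  let S : ∀ n, {c : Re // Matter X (Dn c n) B p} := fun n =>
    Nat.rec (motive := fun n => {c : Re // Matter X (Dn c n) B p}) ⟨_, hc⟩ (fun n c => nx n c) n
  have hS : ∀ n, ∀ i < n, (S (n + 1)).1 i = (S n).1 i := fun n i hi => hnx n (S n) i hi
  let z : Re := fun i => (S (i + 1)).1 i
  have hz : ∀ n, ∀ i < n, (S n).1 i = z i := by
    intro n
    induction n with
    | zero => exact fun i hi => absurd hi (Nat.not_lt_zero i)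
    | succ n ih =>
      intro i hi
      rcases Nat.lt_succ_iff_lt_or_eq.1 hi with hi | rfl
      · rw [hS n i hi, ih i hi]
      · rfl
  refine ⟨z, fun n => ?_⟩
  have : Dn z n = Dn (S n).1 n := by
    ext x
    rw [mem_Dn, mem_Dn]
    constructor
    · intro hx i hi
      rw [hx i hi, hz n i hi]
    · intro hx i hi
      rw [hx i hi, hz n i hi]
  rw [this]
  exact (S n).2

/-- one step of the construction -/
theorem exists_step (X : Set I) (B : L → Set (Cond I)) (z : Re) (p1 : Cond I)
    (hst : ∀ n, ∀ r ≤ p1, Matter X (Dn z n) B r) (n : ℕ) (F : (ℕ → Bool) → Cond I)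
    (ha : ∀ x, F x ≤ p1) (hb : ∀ x y, (∀ i < n, x i = y i) → F x = F y)
    (hc : ∀ k x y, (∀ i < k, x i = y i) → Agr X (Dn z k) (F x) (F y)) :
    ∃ F' : (ℕ → Bool) → Cond I, (∀ x, F' x ≤ F x) ∧
      (∀ x y, (∀ i < n + 1, x i = y i) → F' x = F' y) ∧
      (∀ k x y, (∀ i < k, x i = y i) → Agr X (Dn z k) (F' x) (F' y)) ∧
      ∀ x y, (∀ i < n, x i = y i) → x n ≠ y n → ∃ u,
        (F' x ∈ meets (B u) ∧ F' y ∈ fnot (meets (B u))) ∨
        (F' y ∈ meets (B u) ∧ F' x ∈ fnot (meets (B u))) := by
  classical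
  let cl : (ℕ → Bool) → (Fin n → Bool) := fun x i => x i
  have hcl : ∀ x y, cl x = cl y ↔ ∀ i < n, x i = y i := by
    intro x y
    constructor
    · intro h i hi
      exact congrFun h ⟨i, hi⟩
    · intro h
      funext i
      exact h i i.2
  have key : ∀ J : Finset (Fin n → Bool), ∃ F' : (ℕ → Bool) → Cond I, (∀ x, F' x ≤ F x) ∧
      (∀ x y, (∀ i < n + 1, x i = y i) → F' x = F' y) ∧
      (∀ k x y, (∀ i < k, x i = y i) → Agr X (Dn z k) (F' x) (F' y)) ∧
      (∀ x y, cl x = cl y → cl x ∉ J → F' x = F' y) ∧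
      ∀ x y, cl x = cl y → cl x ∈ J → x n ≠ y n → ∃ u,
        (F' x ∈ meets (B u) ∧ F' y ∈ fnot (meets (B u))) ∨
        (F' y ∈ meets (B u) ∧ F' x ∈ fnot (meets (B u))) := by
    intro J
    induction J using Finset.induction_on with
    | empty =>
      refine ⟨F, fun x => le_rfl, fun x y h => hb x y fun i hi => h i (hi.trans (Nat.lt_succ_self n)),
        hc, fun x y h _ => hb x y ((hcl x y).1 h), fun x y _ h => absurd h (Finset.notMem_empty _)⟩
    | insert τ J hτ ih =>
      obtain ⟨F', h1, h2, h3, h4, h5⟩ := ih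
      let x0 : ℕ → Bool := fun i => if h : i < n then τ ⟨i, h⟩ else false
      have hx0 : cl x0 = τ := by
        funext i
        exact dif_pos i.2
      obtain ⟨r, r', hr, hr', hrr, u, hu, hu'⟩ := hst n (F' x0) ((h1 x0).trans (ha x0))
      have hβ' : ∀ y, (F' y).β ≤ r.β := by
        intro y
        have := β_of_pr (h3 0 y x0 fun i hi => absurd hi (Nat.not_lt_zero i)).pr
        rw [this]
        exact hr.β
      let k : (ℕ → Bool) → ℕ := fun y => least fun i => y i ≠ x0 i
      have hk1 : ∀ y, cl y ≠ τ → y (k y) ≠ x0 (k y) ∧ k y < n ∧ ∀ i < k y, y i = x0 i := by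
        intro y hy
        have hex : ∃ i < n, y i ≠ x0 i := by
          by_contra hcon
          push Not at hcon
          exact hy (((hcl y x0).2 hcon).trans hx0)
        have hex' : ∃ i, y i ≠ x0 i := by
          obtain ⟨i, _, hi⟩ := hex
          exact ⟨i, hi⟩
        have h6 := least_spec (P := fun i => y i ≠ x0 i) hex'
        have h7 : ∀ i, y i ≠ x0 i → k y ≤ i := by
          intro i hi
          exact least_le (P := fun i => y i ≠ x0 i) hi
        obtain ⟨i, hi, hi'⟩ := hex
        refine ⟨h6, (h7 i hi').trans_lt hi, fun j hj => ?_⟩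
        by_contra hcon
        exact absurd (h7 j hcon) (not_le.2 hj)
      have hk2 : ∀ y y' l, cl y ≠ τ → (∀ i < l, y i = y' i) → k y < l → cl y' ≠ τ ∧ k y' = k y := by
        intro y y' l hy hyy hl
        obtain ⟨h6, h7, h8⟩ := hk1 y hy
        have h9 : cl y' ≠ τ := by
          intro h
          have : y' (k y) = x0 (k y) := (hcl y' x0).1 (h.trans hx0.symm) _ h7
          rw [← hyy _ hl] at this
          exact h6 this
        obtain ⟨h10, h11, h12⟩ := hk1 y' h9
        refine ⟨h9, ?_⟩
        rcases lt_trichotomy (k y') (k y) with h | h | h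
        · exact absurd ((hyy _ (h.trans hl)).symm.trans (h8 _ h)) h10
        · exact h
        · exact absurd ((hyy _ hl).trans (h12 _ h)) h6
      let F'' : (ℕ → Bool) → Cond I := fun y =>
        if cl y = τ then (if y n = true then r' else r)
        else tf (Dn z (k y)) X (F' y) r (meas_Dn z _) (hβ' y)
      have hF1 : ∀ y, cl y = τ → F'' y = if y n = true then r' else r := fun y hy => if_pos hy
      have hF2 : ∀ y, cl y ≠ τ → F'' y = tf (Dn z (k y)) X (F' y) r (meas_Dn z _) (hβ' y) :=
        fun y hy => if_neg hy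
      have hFle : ∀ y, F'' y ≤ F' y := by
        intro y
        by_cases hy : cl y = τ
        · rw [hF1 y hy, h4 y x0 (hy.trans hx0.symm) (hy ▸ hτ)]
          split_ifs
          · exact hr'
          · exact hr
        · rw [hF2 y hy]
          obtain ⟨_, h6⟩ := transfer (meas_Dn z (k y)) (h3 (k y) y x0 (hk1 y hy).2.2) hr
          exact h6
      refine ⟨F'', fun y => (hFle y).trans (h1 y), ?_, ?_, ?_, ?_⟩
      · intro x y hxy
        have h6 : cl x = cl y := (hcl x y).2 fun i hi => hxy i (hi.trans (Nat.lt_succ_self n))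
        by_cases hx : cl x = τ
        · rw [hF1 x hx, hF1 y (h6 ▸ hx), hxy n (Nat.lt_succ_self n)]
        · have hy : cl y ≠ τ := h6 ▸ hx
          have h7 := h2 x y hxy
          have h8 := (hk2 x y (n + 1) hx hxy ((hk1 x hx).2.1.trans (Nat.lt_succ_self n))).2
          rw [hF2 x hx, hF2 y hy]
          congr 1
          rw [h8]
      · intro l x y hxy
        by_cases hx : cl x = τ
        · by_cases hy : cl y = τ
          · rw [hF1 x hx, hF1 y hy]
            by_cases hn : x n = y n
            · rw [hn]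
              exact Agr.refl _ _
            · have hl : l ≤ n := by
                by_contra hcon
                exact hn (hxy n (not_le.1 hcon))
              have h6 : Agr X (Dn z l) r r' := hrr.mono (Dn_anti hl)
              cases hxn : x n <;> cases hyn : y n
              · exact absurd (hxn.trans hyn.symm) hn
              · simpa using h6
              · simpa using h6.symm
              · exact absurd (hxn.trans hyn.symm) hn
          · have hl : l ≤ k y := by
              by_contra hcon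
              exact (hk2 y x l hy (fun i hi => (hxy i hi).symm) (not_le.1 hcon)).1 hx
            have h6 : Agr X (Dn z l) r r' := hrr.mono (Dn_anti (hl.trans (hk1 y hy).2.1.le))
            rw [hF1 x hx, hF2 y hy]
            have h7 : Agr X (Dn z l) (tf (Dn z (k y)) X (F' y) r (meas_Dn z _) (hβ' y)) r :=
              agr_tf.mono (Dn_anti hl)
            split_ifs
            · exact (h7.trans h6).symm
            · exact h7.symm
        · by_cases hy : cl y = τ
          · have hl : l ≤ k x := by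
              by_contra hcon
              exact (hk2 x y l hx hxy (not_le.1 hcon)).1 hy
            have h6 : Agr X (Dn z l) r r' := hrr.mono (Dn_anti (hl.trans (hk1 x hx).2.1.le))
            rw [hF1 y hy, hF2 x hx]
            have h7 : Agr X (Dn z l) (tf (Dn z (k x)) X (F' x) r (meas_Dn z _) (hβ' x)) r :=
              agr_tf.mono (Dn_anti hl)
            split_ifs
            · exact h7.trans h6
            · exact h7
          · rw [hF2 x hx, hF2 y hy]
            by_cases hkk : k x = k y
            · refine ⟨pr_tf.trans pr_tf.symm, rfl, fun c hc ξ => ?_⟩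
              have h6 := h3 l x y hxy
              change (if ξ ∈ X ∨ c ∉ Dn z (k x) ∨ ξ ∉ (F' x).A ∨ ξ ∉ r.A then r.f c ξ
                else up r.tr c (F' x).β r.β ((F' x).f c ξ)) =
                (if ξ ∈ X ∨ c ∉ Dn z (k y) ∨ ξ ∉ (F' y).A ∨ ξ ∉ r.A then r.f c ξ
                else up r.tr c (F' y).β r.β ((F' y).f c ξ))
              rw [hkk, h6.A, h6.f c hc ξ, β_of_pr h6.pr]
            · have hl : l ≤ k x := by
                by_contra hcon
                exact hkk (hk2 x y l hx hxy (not_le.1 hcon)).2.symm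
              have hl' : l ≤ k y := by
                by_contra hcon
                exact hkk (hk2 y x l hy (fun i hi => (hxy i hi).symm) (not_le.1 hcon)).2
              exact (agr_tf.mono (Dn_anti hl)).trans (agr_tf.mono (Dn_anti hl')).symm
      · intro x y hxy hJ
        rw [Finset.mem_insert] at hJ
        push Not at hJ
        have hy : cl y ≠ τ := hxy ▸ hJ.1
        have h7 := h4 x y hxy hJ.2
        have h8 := (hk2 x y n hJ.1 ((hcl x y).1 hxy) (hk1 x hJ.1).2.1).2
        rw [hF2 x hJ.1, hF2 y hy]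
        congr 1
        rw [h8]
      · intro x y hxy hJ hn
        rw [Finset.mem_insert] at hJ
        rcases hJ with hx | hJ
        · have hy : cl y = τ := hxy ▸ hx
          rw [hF1 x hx, hF1 y hy]
          cases hxn : x n <;> cases hyn : y n
          · exact absurd (hxn.trans hyn.symm) hn
          · exact ⟨u, Or.inl ⟨by simpa using hu, by simpa using hu'⟩⟩
          · exact ⟨u, Or.inr ⟨by simpa using hu, by simpa using hu'⟩⟩
          · exact absurd (hxn.trans hyn.symm) hn
        · obtain ⟨u, h6 | h6⟩ := h5 x y hxy hJ hn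
          · exact ⟨u, Or.inl ⟨meets_dn h6.1 (hFle x), fnot_dn h6.2 (hFle y)⟩⟩
          · exact ⟨u, Or.inr ⟨meets_dn h6.1 (hFle y), fnot_dn h6.2 (hFle x)⟩⟩
  obtain ⟨F', h1, h2, h3, _, h5⟩ := key Finset.univ
  exact ⟨F', h1, h2, h3, fun x y hxy hn => h5 x y ((hcl x y).2 hxy) (Finset.mem_univ _) hn⟩

end Cond

end Pool.Agent.W873.Kh
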