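import Mathlib
import Pool.Agent.W873.Kh.Branch

set_option autoImplicit false

/-!
# No new branches: the conclusion
-/

namespace Pool.Agent.W873.Kh

open Filter Topology Set Cardinal Pool.Agent.Helper669.Forcing Pool.Agent.W873.Gmp

namespace Cond

variable {I : Type} [LinearOrder I] {L : Type} {X : Set I} {B : L → Set (Cond I)}
  {p q r : Cond I} {R : L → L → Set (Cond I)} {ℓ : L → W → Set (Cond I)} {p0 : Cond I}

/-- `N` only depends on the coordinates in `X`. -/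
def Loc (X : Set I) (N : Set (Cond I)) : Prop :=
  ∀ q q', pr X q = pr X q' → q ∈ meets N → q' ∈ meets N

theorem Loc.pr {N : Set (Cond I)} (h : Loc X N) (hq : q ∈ meets N) : pr X q ∈ meets N :=
  h q _ pr_pr.symm hq

theorem Loc.of_le {N : Set (Cond I)} (h : Loc X N) (hq : q ∈ meets N)
    (hr : Cond.pr X r ≤ Cond.pr X q) : r ∈ meets N :=
  meets_dn (meets_dn (h.pr hq) hr) (le_pr X r)

theorem Loc.not {N : Set (Cond I)} (h : Loc X N) (hq : q ∈ fnot (meets N))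
    (hr : Cond.pr X r ≤ Cond.pr X q) : r ∈ fnot (meets N) := by
  intro s hs hsN
  have h1 : Cond.pr X s ≤ Cond.pr X q := (pr_mono hs).trans hr
  obtain ⟨t, ht, ht'⟩ := exists_am X q (Cond.pr X s) h1
  rw [pr_pr] at ht'
  exact hq t ht (h s t ht'.symm hsN)

theorem B_linear (h0 : p0 ∈ IsTree ℕ R ℓ) {p : Cond I} (hp : p ≤ p0)
    (hB : p ∈ IsCofinalBranch R ℓ B) {u v : L} {γ Γ : W} (hu : p ∈ meets (B u))
    (hv : p ∈ meets (B v)) (hℓu : p ∈ meets (ℓ u γ)) (hℓv : p ∈ meets (ℓ v Γ)) (hγ : γ < Γ) :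
    p ∈ meets (R u v) := by
  refine meets_of_dense fun q hq => ?_
  obtain ⟨r, hr, h1⟩ := mem_fimp.1 (hB.1 u v) q hq ⟨meets_dn hu hq, meets_dn hv hq⟩
  have hrp : r ≤ p := hr.trans hq
  -- `u = v`, or `u < v`, or `v < u`
  by_contra hcon
  push Not at hcon
  refine h1 r le_rfl ⟨fun s hs h2 => ?_, fun s hs h2 => h2 s le_rfl ⟨fun t ht h3 => ?_,
    fun t ht h3 => ?_⟩⟩
  · have h3 : u = v := h2
    subst h3
    have := t_unique h0 ((hs.trans hrp).trans hp) (meets_dn hℓu (hs.trans hrp))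
      (meets_dn hℓv (hs.trans hrp))
    exact absurd this hγ.ne
  · exact hcon t ((ht.trans hs).trans hr) h3
  · have htp : t ≤ p := (ht.trans hs).trans hrp
    exact absurd (t_lt h0 (htp.trans hp) h3 (meets_dn hℓv htp) (meets_dn hℓu htp)) hγ.not_gt

theorem B_down (h0 : p0 ∈ IsTree ℕ R ℓ) {p : Cond I} (hp : p ≤ p0)
    (hB : p ∈ IsCofinalBranch R ℓ B) {u v : L} {γ Γ : W} (huv : p ∈ meets (R u v))
    (hv : p ∈ meets (B v)) (hℓu : p ∈ meets (ℓ u γ)) (hℓv : p ∈ meets (ℓ v Γ)) (hγ : γ < Γ) :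
    p ∈ meets (B u) := by
  refine meets_of_dense fun q hq => ?_
  obtain ⟨r, hr, w, hw, hwγ⟩ := mem_fex.1 (hB.2 γ) q hq
  have hrp : r ≤ p := hr.trans hq
  have h1 : r ∈ meets (R w v) := B_linear h0 (hrp.trans hp)
    ⟨down_fall (fun _ => down_fall fun _ => down_fimp _ _) p hB.1 r hrp,
      down_fall (fun _ => down_fex _) p hB.2 r hrp⟩ hw (meets_dn hv hrp) hwγ
    (meets_dn hℓv hrp) hγ
  have h2 : w = u := t_uniq h0 (hrp.trans hp) h1 (meets_dn huv hrp) hwγ (meets_dn hℓu hrp)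
  exact ⟨r, hr, h2 ▸ hw⟩

/-- No new branches through trees of height `ω₁` with countable levels. -/
theorem no_new_branch (h0 : p0 ∈ IsTree ℕ R ℓ) (hR : ∀ x y, Loc X (R x y))
    (hℓ : ∀ x a, Loc X (ℓ x a)) {p1 : Cond I} (hp1 : p1 ≤ p0)
    (hB : p1 ∈ IsCofinalBranch R ℓ B) : ∃ p' ≤ p1, ∀ r ≤ p', ∀ r' ≤ p', pr X r = pr X r' →
      ∀ u, r ∈ meets (B u) → r' ∉ fnot (meets (B u)) := by
  classical
  by_contra hcon
  push Not at hcon
  have hsp : ∀ p' ≤ p1, Matter X Set.univ B p' := by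
    intro p' hp'
    obtain ⟨r, hr, r', hr', h1, u, h2, h3⟩ := hcon p' hp'
    exact matter_univ ⟨r, r', hr, hr', h1, u, h2, h3⟩
  obtain ⟨p2, hp2, hst⟩ := exists_stable X B p1
  obtain ⟨z, hz⟩ := exists_real X B p2 (hsp p2 hp2)
  have hz' : ∀ n, ∀ r ≤ p2, Matter X (Dn z n) B r := fun n r hr => hst _ (hz n) r hr
  -- the sequence of the families
  let Good : ℕ → ((ℕ → Bool) → Cond I) → Prop := fun n F => (∀ x, F x ≤ p2) ∧
    (∀ x y, (∀ i < n, x i = y i) → F x = F y) ∧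
    (∀ k x y, (∀ i < k, x i = y i) → Agr X (Dn z k) (F x) (F y))
  have hstep : ∀ (n : ℕ) (F : {F // Good n F}), ∃ F' : {F // Good (n + 1) F},
      (∀ x, F'.1 x ≤ F.1 x) ∧ ∀ x y, (∀ i < n, x i = y i) → x n ≠ y n → ∃ u,
        (F'.1 x ∈ meets (B u) ∧ F'.1 y ∈ fnot (meets (B u))) ∨
        (F'.1 y ∈ meets (B u) ∧ F'.1 x ∈ fnot (meets (B u))) := by
    rintro n ⟨F, ha, hb, hc⟩
    obtain ⟨F', h1, h2, h3, h4⟩ := exists_step X B z p2 hz' n F ha hb hc
    exact ⟨⟨F', fun x => (h1 x).trans (ha x), h2, h3⟩, h1, h4⟩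
  choose nx hnx1 hnx2 using hstep
  let FF : ∀ n, {F // Good n F} := fun n => Nat.rec (motive := fun n => {F // Good n F})
    ⟨fun _ => p2, fun _ => le_rfl, fun _ _ _ => rfl, fun _ _ _ _ => Agr.refl _ _⟩
    (fun n F => nx n F) n
  let F : ℕ → (ℕ → Bool) → Cond I := fun n => (FF n).1
  have hF1 : ∀ n x, F (n + 1) x ≤ F n x := fun n x => hnx1 n (FF n) x
  have hF2 : ∀ n x y, (∀ i < n, x i = y i) → F n x = F n y := fun n => (FF n).2.2.1
  have hF3 : ∀ n k x y, (∀ i < k, x i = y i) → Agr X (Dn z k) (F n x) (F n y) :=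
    fun n => (FF n).2.2.2
  have hF4 : ∀ n x y, (∀ i < n, x i = y i) → x n ≠ y n → ∃ u,
        (F (n + 1) x ∈ meets (B u) ∧ F (n + 1) y ∈ fnot (meets (B u))) ∨
        (F (n + 1) y ∈ meets (B u) ∧ F (n + 1) x ∈ fnot (meets (B u))) :=
    fun n => hnx2 n (FF n)
  obtain ⟨px, hpx, hprx⟩ := exists_limit X z F hF1 hF3
  -- the countable set of the nodes used
  obtain ⟨_, _, u0, _⟩ := t_ne h0 le_rfl (Classical.choice (α := W) (by
    rw [← mk_ne_zero_iff, mk_ord_toType]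
    exact (aleph0_pos.trans aleph0_lt_aleph_one).ne'))
  let Sp : Cond I → Cond I → L → Prop := fun G H u =>
    (G ∈ meets (B u) ∧ H ∈ fnot (meets (B u))) ∨ (H ∈ meets (B u) ∧ G ∈ fnot (meets (B u)))
  have hU : ∀ a : ℕ × List Bool × List Bool, ∃ u : L,
      (∃ u, Sp (F (a.1 + 1) (extz a.2.1)) (F (a.1 + 1) (extz a.2.2)) u) →
      Sp (F (a.1 + 1) (extz a.2.1)) (F (a.1 + 1) (extz a.2.2)) u := by
    intro a
    by_cases h : ∃ u, Sp (F (a.1 + 1) (extz a.2.1)) (F (a.1 + 1) (extz a.2.2)) u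
    · obtain ⟨u, hu⟩ := h
      exact ⟨u, fun _ => hu⟩
    · exact ⟨u0, fun h' => absurd h' h⟩
  choose U hU using hU
  have hUx : ∀ x y : ℕ → Bool, x ≠ y → ∃ a, Sp (px x) (px y) (U a) := by
    intro x y hxy
    have hex : ∃ i, x i ≠ y i := by
      by_contra h
      push Not at h
      exact hxy (funext h)
    let n := least fun i => x i ≠ y i
    have hn : x n ≠ y n := least_spec (P := fun i => x i ≠ y i) hex
    have hn' : ∀ i < n, x i = y i := by
      intro i hi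
      by_contra h
      exact absurd (least_le (P := fun i => x i ≠ y i) h) (not_le.2 hi)
    have hx : F (n + 1) (extz (List.ofFn (fun i : Fin (n + 1) => x i))) = F (n + 1) x :=
      hF2 (n + 1) _ _ fun i hi => extz_ofFn x (n + 1) i hi
    have hy : F (n + 1) (extz (List.ofFn (fun i : Fin (n + 1) => y i))) = F (n + 1) y :=
      hF2 (n + 1) _ _ fun i hi => extz_ofFn y (n + 1) i hi
    refine ⟨(n, List.ofFn (fun i : Fin (n + 1) => x i), List.ofFn (fun i : Fin (n + 1) => y i)),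
      ?_⟩
    have h1 := hU (n, List.ofFn (fun i : Fin (n + 1) => x i),
      List.ofFn (fun i : Fin (n + 1) => y i))
    simp only [] at h1
    rw [hx, hy] at h1
    rcases h1 (hF4 n x y hn' hn) with h2 | h2
    · exact Or.inl ⟨meets_dn h2.1 (hpx (n + 1) x), fnot_dn h2.2 (hpx (n + 1) y)⟩
    · exact Or.inr ⟨meets_dn h2.1 (hpx (n + 1) y), fnot_dn h2.2 (hpx (n + 1) x)⟩
  -- deciding the level `Γ`
  let o : ℕ → Bool := fun _ => false
  have hpx0 : ∀ x, px x ≤ p1 := fun x => (hpx 0 x).trans (((FF 0).2.1 x).trans hp2)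
  obtain ⟨q1, hq1, hlev⟩ := exists_generic (px o)
    (fun a : ℕ × List Bool × List Bool => {q : Cond I | ∃ γ, q ∈ meets (ℓ (U a) γ)})
    (fun a q h q' hq' => by
      obtain ⟨γ, hγ⟩ := h
      exact ⟨γ, meets_dn hγ hq'⟩)
    (fun a q hq => by
      obtain ⟨r, hr, γ, hγ⟩ := t_total h0 (hq.trans ((hpx0 o).trans hp1)) (U a)
      exact ⟨r, hr, γ, hγ⟩)
  choose γ hγ using hlev
  obtain ⟨Γ, hΓ⟩ := W_bdd (range γ) (countable_range γ)
  have hq10 : q1 ≤ p0 := hq1.trans ((hpx0 o).trans hp1)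
  obtain ⟨q2, hq2, Fn, hFn, hcov⟩ := t_small h0 hq10 Γ
  obtain ⟨q3, hq3, hval⟩ := exists_generic q2
    (fun k : ℕ => {q : Cond I | ∃ v, q ∈ meets (Fn k v)})
    (fun a q h q' hq' => by
      obtain ⟨γ, hγ⟩ := h
      exact ⟨γ, meets_dn hγ hq'⟩)
    (fun k q hq => by
      obtain ⟨r, hr, v, hv⟩ := IsFun.total (down_IsFun Fn q2 hFn q hq) k
      exact ⟨r, hr, v, hv⟩)
  choose v hv using hval
  obtain ⟨q4, hq4, hdec⟩ := exists_generic q3
    (fun a : ℕ × (ℕ × List Bool × List Bool) =>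
      {q : Cond I | q ∈ meets (R (U a.2) (v a.1)) ∨ q ∈ fnot (meets (R (U a.2) (v a.1)))})
    (fun a q h q' hq' => by
      rcases h with h | h
      · exact Or.inl (meets_dn h hq')
      · exact Or.inr (fnot_dn h hq'))
    (fun a q _ => by
      obtain ⟨r, hr, h⟩ := exists_dec (R (U a.2) (v a.1)) q
      exact ⟨r, hr, h⟩)
  have hq42 : q4 ≤ q2 := hq4.trans hq3
  have hq41 : q4 ≤ q1 := hq42.trans hq2
  -- each `x` chooses a node of the level `Γ`
  have hch : ∀ x, ∃ k, ∃ r ≤ px x, pr X r ≤ pr X q4 ∧ r ∈ meets (B (v k)) ∧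
      r ∈ meets (ℓ (v k) Γ) := by
    intro x
    have h1 : pr X q4 ≤ pr X (px x) := by
      rw [hprx x o]
      exact pr_mono (hq41.trans hq1)
    obtain ⟨r0, hr0, hr0'⟩ := exists_am X (px x) (pr X q4) h1
    rw [pr_pr] at hr0'
    obtain ⟨r1, hr1, w, hw, hwΓ⟩ := mem_fex.1 (hB.2 Γ) r0 (hr0.trans (hpx0 x))
    have h2 : pr X r1 ≤ pr X q4 := by
      rw [← hr0']
      exact pr_mono hr1
    obtain ⟨s, hs, hs'⟩ := exists_am X q4 (pr X r1) h2
    rw [pr_pr] at hs'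
    have h3 : s ∈ meets (ℓ w Γ) := hℓ w Γ r1 s hs'.symm hwΓ
    obtain ⟨s', hs', k, hk⟩ := hcov w s (hs.trans hq42) h3
    have h4 : w = v k := IsFun.unique (down_IsFun Fn q2 hFn s' (hs'.trans (hs.trans hq42))) hk
      (meets_dn (hv k) (hs'.trans (hs.trans hq4)))
    exact ⟨k, r1, hr1.trans hr0, h2, h4 ▸ hw, h4 ▸ hwΓ⟩
  choose k r hr1 hr2 hr3 hr4 using hch
  have hrB : ∀ x, r x ∈ IsCofinalBranch R ℓ B := fun x =>
    ⟨down_fall (fun _ => down_fall fun _ => down_fimp _ _) p1 hB.1 (r x)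
      ((hr1 x).trans (hpx0 x)), down_fall (fun _ => down_fex _) p1 hB.2 (r x)
      ((hr1 x).trans (hpx0 x))⟩
  have hr0 : ∀ x, r x ≤ p0 := fun x => (hr1 x).trans ((hpx0 x).trans hp1)
  have hrγ : ∀ x a, r x ∈ meets (ℓ (U a) (γ a)) := fun x a =>
    (hℓ _ _).of_le (meets_dn (hγ a) hq41) (hr2 x)
  have key : ∀ x y, k x = k y → ∀ a, px x ∈ meets (B (U a)) → px y ∉ fnot (meets (B (U a))) := by
    intro x y hxy a h1 h2
    have h3 : r x ∈ meets (R (U a) (v (k x))) := B_linear h0 (hr0 x) (hrB x)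
      (meets_dn h1 (hr1 x)) (hr3 x) (hrγ x a) (hr4 x) (hΓ _ ⟨a, rfl⟩)
    have h4 : q4 ∈ meets (R (U a) (v (k x))) := by
      rcases hdec (k x, a) with h | h
      · exact h
      · exact absurd h3 ((hR _ _).not h (hr2 x) (r x) le_rfl)
    have h5 : r y ∈ meets (R (U a) (v (k y))) := by
      rw [← hxy]
      exact (hR _ _).of_le h4 (hr2 y)
    have h6 : r y ∈ meets (B (U a)) := B_down h0 (hr0 y) (hrB y) h5 (hr3 y) (hrγ y a) (hr4 y)
      (hΓ _ ⟨a, rfl⟩)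
    exact h2 (r y) (hr1 y) h6
  have hinj : Function.Injective k := by
    intro x y hxy
    by_contra hne
    obtain ⟨a, h | h⟩ := hUx x y hne
    · exact key x y hxy a h.1 h.2
    · exact key y x hxy.symm a h.1 h.2
  have h1 : #(ℕ → Bool) ≤ #ℕ := mk_le_of_injective hinj
  rw [mk_nat, ← power_def, mk_nat, mk_bool] at h1
  exact absurd h1 (not_le.2 (cantor ℵ₀))

end Cond

end Pool.Agent.W873.Kh
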