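import Mathlib
import Pool.Agent.W873.Kh.Branch2
import Pool.Agent.W873.Club1

set_option autoImplicit false

/-!
# The chain condition
-/

namespace Pool.Agent.W873.Kh

open Filter Topology Set Cardinal Pool.Agent.Helper669.Forcing Pool.Agent.W873.Gmp

abbrev Ik (κ : Cardinal.{0}) : Type := κ.ord.ToType

variable {κ : Cardinal.{0}}

theorem bddK (hκ : κ.IsInaccessible) (S : Set (Ik κ)) (hS : #S < κ) :
    ∃ β : Ik κ, ∀ x ∈ S, x < β := by
  by_contra hcon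
  push Not at hcon
  have h1 : IsCofinal S := fun β => by
    obtain ⟨x, hx, h⟩ := hcon β
    exact ⟨x, hx, h⟩
  have h2 := Order.cof_le h1
  rw [Ordinal.cof_toType, hκ.isRegular.cof_ord] at h2
  exact absurd h2 (not_le.2 hS)

theorem mk_IioK (x : Ik κ) : #(Set.Iio x) < κ := by
  have h := mk_Iio_lt x (by simp)
  rwa [mk_ord_toType] at h

theorem lt_set (hκ : κ.IsInaccessible) {A : Type} (hA : #A < κ) : #(Set A) < κ := by
  rw [mk_set]
  exact hκ.isStrongPrelimit hA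

theorem lt_prod (hκ : κ.IsInaccessible) {A B : Type} (hA : #A < κ) (hB : #B < κ) :
    #(A × B) < κ := by
  rw [mk_prod, Cardinal.lift_id, Cardinal.lift_id]
  exact mul_lt_of_lt hκ.aleph0_lt.le hA hB

theorem lt_fun (hκ : κ.IsInaccessible) {A B : Type} (hA : #A < κ) (hB : #B < κ) :
    #(A → B) < κ := by
  refine lt_of_le_of_lt ?_ (lt_set hκ (lt_prod hκ hA hB))
  refine mk_le_of_injective (f := fun (f : A → B) => {x : A × B | x.2 = f x.1}) ?_
  intro f g h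
  funext a
  have h1 : (a, f a) ∈ {x : A × B | x.2 = f x.1} := rfl
  simp only at h
  rw [h] at h1
  exact h1

theorem lt_nat (hκ : κ.IsInaccessible) : #ℕ < κ := by
  rw [mk_nat]
  exact hκ.aleph0_lt

theorem lt_Re (hκ : κ.IsInaccessible) : #Re < κ :=
  lt_fun hκ (lt_nat hκ) ((mk_le_aleph0 (α := Bool)).trans_lt hκ.aleph0_lt)

theorem lt_W (hκ : κ.IsInaccessible) : #W < κ := by
  rw [mk_ord_toType]
  refine lt_of_le_of_lt ?_ (hκ.isStrongPrelimit hκ.aleph0_lt)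
  rw [← succ_aleph0]
  exact Order.succ_le_of_lt (cantor ℵ₀)

theorem lt_iUnion (hκ : κ.IsInaccessible) {ι A : Type} (hι : #ι < κ) (S : ι → Set A)
    (hS : ∀ i, #(S i) < κ) : #(⋃ i, S i) < κ := by
  refine lt_of_le_of_lt (mk_iUnion_le_sum_mk (f := S)) ?_
  exact sum_lt_of_isRegular hκ.isRegular hι hS

/-- a closed ordinal of uncountable cofinality -/
theorem exists_closed (hκ : κ.IsInaccessible) (h : Ik κ → Ik κ) : ∃ δ : Ik κ,
    (∀ α < δ, h α < δ) ∧ ∀ S : Set (Ik κ), S.Countable → (∀ x ∈ S, x < δ) →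
      ∃ α < δ, ∀ x ∈ S, x < α := by
  classical
  have hH : ∀ α : Ik κ, ∃ β, ∀ x ∈ insert α (h '' Iic α), x < β := by
    intro α
    refine bddK hκ _ ?_
    refine (mk_insert_le).trans_lt (add_lt_of_lt hκ.aleph0_lt.le ?_ (one_lt_aleph0.trans hκ.aleph0_lt))
    refine mk_image_le.trans_lt ?_
    have h1 : (Iic α : Set (Ik κ)) = insert α (Iio α) := by
      ext x
      simp only [mem_Iic, mem_insert_iff, mem_Iio]
      exact le_iff_eq_or_lt
    rw [h1]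
    exact (mk_insert_le).trans_lt (add_lt_of_lt hκ.aleph0_lt.le (mk_IioK α)
      (one_lt_aleph0.trans hκ.aleph0_lt))
  choose H hH using hH
  have hH1 : ∀ α, α < H α := fun α => hH α α (mem_insert _ _)
  have hH2 : ∀ α, ∀ α' ≤ α, h α' < H α := fun α α' hα => hH α _ (Or.inr ⟨α', hα, rfl⟩)
  have hne : Nonempty (Ik κ) := by
    rw [← mk_ne_zero_iff, mk_ord_toType]
    exact hκ.ne_zero
  let bd : Set (Ik κ) → Ik κ := fun S => if h : ∃ β, ∀ x ∈ S, x < β then h.choose else hne.some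
  have hbd : ∀ S : Set (Ik κ), #S < κ → ∀ x ∈ S, x < bd S := by
    intro S hS
    have h1 := bddK hκ S hS
    change ∀ x ∈ S, x < if h : ∃ β, ∀ x ∈ S, x < β then h.choose else hne.some
    rw [dif_pos h1]
    exact h1.choose_spec
  let wf := wellFounded_lt (α := W)
  let Fd : ∀ γ : W, (∀ γ' : W, γ' < γ → Ik κ) → Ik κ := fun γ ih =>
    bd {x | ∃ γ', ∃ h : γ' < γ, x = H (ih γ' h)}
  let d : W → Ik κ := wf.fix Fd
  have hd : ∀ γ, d γ = bd {x | ∃ γ', ∃ _ : γ' < γ, x = H (d γ')} := fun γ => wf.fix_eq Fd γ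
  have hd1 : ∀ γ γ' : W, γ' < γ → H (d γ') < d γ := by
    intro γ γ' hγ
    rw [hd γ]
    refine hbd _ ?_ _ ⟨γ', hγ, rfl⟩
    have h1 : {x | ∃ γ', ∃ _ : γ' < γ, x = H (d γ')} ⊆ (fun γ' => H (d γ')) '' Iio γ := by
      rintro _ ⟨γ', h, rfl⟩
      exact ⟨γ', h, rfl⟩
    refine (mk_le_mk_of_subset h1).trans_lt (mk_image_le.trans_lt ?_)
    exact (mk_set_le _).trans_lt (lt_W hκ)
  have hWmax : ∀ γ : W, ∃ γ', γ < γ' := by
    intro γ
    obtain ⟨δ, hδ⟩ := W_bdd {γ} (countable_singleton γ)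
    exact ⟨δ, hδ γ rfl⟩
  obtain ⟨δ0, hδ0⟩ := bddK hκ (range d) (mk_range_le.trans_lt (lt_W hκ))
  have hne' : ({δ | ∀ γ, d γ < δ} : Set (Ik κ)).Nonempty := ⟨δ0, fun γ => hδ0 _ ⟨γ, rfl⟩⟩
  obtain ⟨δ, h1, h2⟩ := WellFounded.has_min (wellFounded_lt (α := Ik κ)) _ hne'
  have h3 : ∀ α < δ, ∃ γ, α ≤ d γ := by
    intro α hα
    by_contra hcon
    push Not at hcon
    exact h2 α hcon hα
  refine ⟨δ, fun α hα => ?_, fun S hS hSδ => ?_⟩
  · obtain ⟨γ, hγ⟩ := h3 α hα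
    obtain ⟨γ', hγ'⟩ := hWmax γ
    exact (hH2 (d γ) α hγ).trans ((hd1 γ' γ hγ').trans (h1 γ'))
  · have h4 : ∀ x : S, ∃ γ, x.1 ≤ d γ := fun x => h3 x.1 (hSδ x.1 x.2)
    choose γ hγ using h4
    have : Countable S := hS.to_subtype
    obtain ⟨γs, hγs⟩ := W_bdd (range γ) (countable_range γ)
    refine ⟨d γs, h1 γs, fun x hx => ?_⟩
    exact (hγ ⟨x, hx⟩).trans_lt ((hH1 _).trans (hd1 γs _ (hγs _ ⟨⟨x, hx⟩, rfl⟩)))

namespace Cond

section gen

variable {I : Type} [LinearOrder I] {X Y : Set I} {p q r : Cond I}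

theorem pr_pr_of_subset (h : X ⊆ Y) (p : Cond I) : pr X (pr Y p) = pr X p := by
  classical
  refine ext' rfl rfl ?_ ?_ ?_ ?_
  · change p.A ∩ Y ∩ X = p.A ∩ X
    rw [inter_assoc, inter_eq_right.2 h]
  · funext c ξ
    change (if ξ ∈ X then (if ξ ∈ Y then p.f c ξ else 0) else 0) = if ξ ∈ X then p.f c ξ else 0
    by_cases h1 : ξ ∈ X
    · rw [if_pos h1, if_pos h1, if_pos (h h1)]
    · rw [if_neg h1, if_neg h1]
  · ext e
    change (e ∈ p.E ∧ e.1 ∈ Y) ∧ e.1 ∈ X ↔ e ∈ p.E ∧ e.1 ∈ X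
    constructor
    · exact fun h1 => ⟨h1.1.1, h1.2⟩
    · exact fun h1 => ⟨⟨h1.1, h h1.2⟩, h1.2⟩
  · funext j i
    change (if j ∈ X then (if j ∈ Y then p.g j i else j) else j) = if j ∈ X then p.g j i else j
    by_cases h1 : j ∈ X
    · rw [if_pos h1, if_pos h1, if_pos (h h1)]
    · rw [if_neg h1, if_neg h1]

theorem pr_congr (h : X ⊆ Y) (hpq : pr Y p = pr Y q) : pr X p = pr X q := by
  rw [← pr_pr_of_subset h p, hpq, pr_pr_of_subset h q]

theorem Loc.mono {N : Set (Cond I)} (hN : Loc X N) (h : X ⊆ Y) : Loc Y N :=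
  fun q q' hq => hN q q' (pr_congr h hq)

theorem pr_f_pos {c : Re} {ξ : I} (h : ξ ∈ X) : (pr X p).f c ξ = p.f c ξ := if_pos h

theorem pr_f_neg {c : Re} {ξ : I} (h : ξ ∉ X) : (pr X p).f c ξ = 0 := if_neg h

theorem pr_g_pos {j : I} {i : W} (h : j ∈ X) : (pr X p).g j i = p.g j i := if_pos h

theorem pr_g_neg {j : I} {i : W} (h : j ∉ X) : (pr X p).g j i = j := if_neg h

/-- the support -/
def supp (p : Cond I) : Set I := p.A ∪ Prod.fst '' p.E

theorem supp_cnt (p : Cond I) : p.supp.Countable := p.A_cnt.union (p.E_cnt.image _)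

open Classical in
theorem compat (h : pr X p = pr X q) (hs : ∀ ξ ∈ p.supp, ξ ∈ q.supp → ξ ∈ X) :
    ∃ r, r ≤ p ∧ r ≤ q := by
  let r : Cond I :=
    { β := p.β
      tr := p.tr
      tr_self := p.tr_self
      tr_comp := p.tr_comp
      tr_surj := p.tr_surj
      tr_meas := p.tr_meas
      A := p.A ∪ q.A
      A_cnt := p.A_cnt.union q.A_cnt
      f := fun c ξ => if ξ ∈ p.A then p.f c ξ else q.f c ξ
      f_meas := fun ξ => by
        by_cases h : ξ ∈ p.A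
        · simp only [h, if_true]
          exact p.f_meas ξ
        · simp only [h, if_false]
          exact q.f_meas ξ
      f_out := fun c ξ h1 => by
        have h2 : ξ ∉ p.A ∧ ξ ∉ q.A := by
          rwa [mem_union, not_or] at h1
        simp only [h2.1, if_false]
        exact q.f_out c ξ h2.2
      E := p.E ∪ q.E
      E_cnt := p.E_cnt.union q.E_cnt
      g := fun j i => if (j, i) ∈ p.E then p.g j i else q.g j i
      g_lt := fun j i h1 => by
        split_ifs with h2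
        · exact p.g_lt j i h2
        · exact q.g_lt j i (h1.resolve_left h2)
      g_out := fun j i h1 => by
        have h2 : (j, i) ∉ p.E ∧ (j, i) ∉ q.E := by
          rwa [mem_union, not_or] at h1
        simp only [h2.1, if_false]
        exact q.g_out j i h2.2 }
  refine ⟨r, ⟨le_rfl, fun _ _ _ _ _ _ => rfl, subset_union_left, fun ξ hξ => ?_,
    subset_union_left, fun j i hji => if_pos hji⟩, ?_⟩
  · refine Eventually.of_forall fun c => ?_
    change p.tr c p.β p.β (if ξ ∈ p.A then p.f c ξ else q.f c ξ) = p.f c ξ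
    rw [if_pos hξ, p.tr_self c _ _ le_rfl]
  · have hβ := β_of_pr h
    have htr := tr_of_pr h
    refine ⟨hβ.ge, fun c γ γ' n h1 h2 => ?_, subset_union_right, fun ξ hξ => ?_,
      subset_union_right, fun j i hji => ?_⟩
    · change p.tr c γ γ' n = q.tr c γ γ' n
      rw [htr]
    · refine Eventually.of_forall fun c => ?_
      change p.tr c q.β p.β (if ξ ∈ p.A then p.f c ξ else q.f c ξ) = q.f c ξ
      rw [← hβ, p.tr_self c _ _ le_rfl]
      split_ifs with h3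
      · exact f_of_pr h (hs ξ (Or.inl h3) (Or.inl hξ)) c
      · rfl
    · change (if (j, i) ∈ p.E then p.g j i else q.g j i) = q.g j i
      split_ifs with h3
      · exact g_of_pr h (hs j (Or.inr ⟨_, h3, rfl⟩) (Or.inr ⟨_, hji, rfl⟩)) i
      · rfl

end gen

/-- the data of a projection -/
theorem lt_range_pr (hκ : κ.IsInaccessible) (α : Ik κ) :
    #(range fun p : Cond (Ik κ) => pr (Iio α) p) < κ := by
  classical
  let Xα : Type := (Iio α : Set (Ik κ))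
  let Dt : Type := W × (Re → W → W → ℕ → ℕ) × Set Xα × (Re → Xα → ℕ) × Set (Xα × W) ×
    (Xα → W → Option Xα)
  have hX : #Xα < κ := mk_IioK α
  have hN := lt_nat hκ
  have hW := lt_W hκ
  have hR := lt_Re hκ
  have hOpt : #(Option Xα) < κ := by
    rw [mk_option]
    exact add_lt_of_lt hκ.aleph0_lt.le hX (one_lt_aleph0.trans hκ.aleph0_lt)
  have hDt : #Dt < κ := by
    refine lt_prod hκ hW (lt_prod hκ ?_ (lt_prod hκ (lt_set hκ hX) (lt_prod hκ ?_
      (lt_prod hκ (lt_set hκ (lt_prod hκ hX hW)) ?_))))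
    · exact lt_fun hκ hR (lt_fun hκ hW (lt_fun hκ hW (lt_fun hκ hN hN)))
    · exact lt_fun hκ hR (lt_fun hκ hX hN)
    · exact lt_fun hκ hX (lt_fun hκ hW hOpt)
  let F : Cond (Ik κ) → Dt := fun p => (p.β, p.tr, {x | x.1 ∈ p.A}, fun c x => p.f c x.1,
    {x | (x.1.1, x.2) ∈ p.E}, fun x i => if h : p.g x.1 i < α then some ⟨p.g x.1 i, h⟩ else none)
  have hF : ∀ p q : Cond (Ik κ), F p = F q → pr (Iio α) p = pr (Iio α) q := by
    intro p q h
    have h1 : p.β = q.β := congrArg (fun d : Dt => d.1) h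
    have h2 : p.tr = q.tr := congrArg (fun d : Dt => d.2.1) h
    have h3 : ({x | x.1 ∈ p.A} : Set Xα) = {x | x.1 ∈ q.A} := congrArg (fun d : Dt => d.2.2.1) h
    have h4 : (fun c (x : Xα) => p.f c x.1) = fun c (x : Xα) => q.f c x.1 :=
      congrArg (fun d : Dt => d.2.2.2.1) h
    have h5 : ({x | (x.1.1, x.2) ∈ p.E} : Set (Xα × W)) = {x | (x.1.1, x.2) ∈ q.E} :=
      congrArg (fun d : Dt => d.2.2.2.2.1) h
    have h6 : (fun (x : Xα) (i : W) => if h : p.g x.1 i < α then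
        (some ⟨p.g x.1 i, h⟩ : Option Xα) else none) = fun (x : Xα) (i : W) =>
        if h : q.g x.1 i < α then (some ⟨q.g x.1 i, h⟩ : Option Xα) else none :=
      congrArg (fun d : Dt => d.2.2.2.2.2) h
    refine ext' h1 h2 ?_ ?_ ?_ ?_
    · change p.A ∩ Iio α = q.A ∩ Iio α
      ext ξ
      constructor
      · rintro ⟨h7, h8⟩
        have : (⟨ξ, h8⟩ : Xα) ∈ {x : Xα | x.1 ∈ p.A} := h7
        rw [h3] at this
        exact ⟨this, h8⟩
      · rintro ⟨h7, h8⟩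
        have : (⟨ξ, h8⟩ : Xα) ∈ {x : Xα | x.1 ∈ q.A} := h7
        rw [← h3] at this
        exact ⟨this, h8⟩
    · funext c ξ
      by_cases h7 : ξ ∈ Iio α
      · rw [pr_f_pos h7, pr_f_pos h7]
        exact congrFun (congrFun h4 c) ⟨ξ, h7⟩
      · rw [pr_f_neg h7, pr_f_neg h7]
    · ext ⟨j, i⟩
      change ((j, i) ∈ p.E ∧ j ∈ Iio α) ↔ ((j, i) ∈ q.E ∧ j ∈ Iio α)
      constructor
      · rintro ⟨h7, h8⟩
        have : ((⟨j, h8⟩ : Xα), i) ∈ {x : Xα × W | (x.1.1, x.2) ∈ p.E} := h7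
        rw [h5] at this
        exact ⟨this, h8⟩
      · rintro ⟨h7, h8⟩
        have : ((⟨j, h8⟩ : Xα), i) ∈ {x : Xα × W | (x.1.1, x.2) ∈ q.E} := h7
        rw [← h5] at this
        exact ⟨this, h8⟩
    · funext j i
      by_cases h7 : j ∈ Iio α
      · rw [pr_g_pos h7, pr_g_pos h7]
        have hle : ∀ p : Cond (Ik κ), p.g j i < α := by
          intro p
          by_cases h8 : (j, i) ∈ p.E
          · exact (p.g_lt j i h8).trans h7
          · rw [p.g_out j i h8]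
            exact h7
        have h9 := congrFun (congrFun h6 ⟨j, h7⟩) i
        simp only [hle p, hle q, dif_pos, Option.some.injEq] at h9
        exact congrArg Subtype.val h9
      · rw [pr_g_neg h7, pr_g_neg h7]
  refine lt_of_le_of_lt ?_ hDt
  refine mk_le_of_injective (f := fun v : range (fun p : Cond (Ik κ) => pr (Iio α) p) =>
    F v.2.choose) ?_
  intro v w h
  have h1 := hF _ _ h
  have h2 : pr (Iio α) v.2.choose = v.1 := v.2.choose_spec
  have h3 : pr (Iio α) w.2.choose = w.1 := w.2.choose_spec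
  exact Subtype.ext (by rw [← h2, h1, h3])

/-- reflection -/
theorem reflect (hκ : κ.IsInaccessible) (Q : Cond (Ik κ) → Ik κ → Prop) : ∃ δ : Ik κ,
    ∀ p j, Q p j → ∀ q, pr (Iio δ) q = pr (Iio δ) p → ∃ p' j', Q p' j' ∧ j' < δ ∧
      ∃ r, r ≤ p' ∧ r ≤ q := by
  classical
  by_cases hemp : ∃ p j, Q p j
  swap
  · have hne : Nonempty (Ik κ) := by
      rw [← mk_ne_zero_iff, mk_ord_toType]
      exact hκ.ne_zero
    exact ⟨hne.some, fun p j h => absurd ⟨p, j, h⟩ hemp⟩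
  obtain ⟨p0, j0, _⟩ := hemp
  have hch : ∀ (α : Ik κ) (v : Cond (Ik κ)), ∃ p j, (∃ p j, Q p j ∧ pr (Iio α) p = v) →
      (Q p j ∧ pr (Iio α) p = v) := by
    intro α v
    by_cases h : ∃ p j, Q p j ∧ pr (Iio α) p = v
    · obtain ⟨p, j, h1⟩ := h
      exact ⟨p, j, fun _ => h1⟩
    · exact ⟨p0, j0, fun h' => absurd h' h⟩
  choose P J hPJ using hch
  have hh : ∀ α : Ik κ, ∃ β, ∀ x ∈ ⋃ v : range (fun p : Cond (Ik κ) => pr (Iio α) p),
      insert (J α v.1) (P α v.1).supp, x < β := by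
    intro α
    refine bddK hκ _ (lt_iUnion hκ (lt_range_pr hκ α) _ fun v => ?_)
    exact (mk_le_aleph0_iff.2 ((supp_cnt (P α v.1)).insert _).to_subtype).trans_lt hκ.aleph0_lt
  choose h hh using hh
  obtain ⟨δ, hδ1, hδ2⟩ := exists_closed hκ h
  refine ⟨δ, fun p j hQ q hq => ?_⟩
  obtain ⟨α, hα, hα'⟩ := hδ2 (q.supp ∩ Iio δ) ((supp_cnt q).mono inter_subset_left)
    fun x hx => hx.2
  have hsub : (Iio α : Set (Ik κ)) ⊆ Iio δ := Iio_subset_Iio hα.le
  obtain ⟨h1, h2⟩ := hPJ α (pr (Iio α) p) ⟨p, j, hQ, rfl⟩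
  have h3 : ∀ x ∈ insert (J α (pr (Iio α) p)) (P α (pr (Iio α) p)).supp, x < δ := by
    intro x hx
    refine (hh α x (mem_iUnion.2 ⟨⟨pr (Iio α) p, ⟨p, rfl⟩⟩, hx⟩)).trans (hδ1 α hα)
  refine ⟨_, _, h1, h3 _ (mem_insert _ _), ?_⟩
  refine compat (X := Iio α) (h2.trans (pr_congr hsub hq.symm)) fun ξ hξ hξq => ?_
  exact hα' ξ ⟨hξq, h3 ξ (Or.inr hξ)⟩

/-- the `κ`-chain condition -/
theorem cc (hκ : κ.IsInaccessible) (P : Ik κ → Cond (Ik κ)) :
    ∃ i j, i < j ∧ ∃ r, r ≤ P i ∧ r ≤ P j := by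
  obtain ⟨δ, hδ⟩ := reflect hκ (fun p j => p = P j)
  obtain ⟨p', j', rfl, hj', h⟩ := hδ (P δ) δ rfl (P δ) rfl
  exact ⟨j', δ, hj', h⟩

/-- each name has small support -/
theorem exists_loc (hκ : κ.IsInaccessible) (N : Set (Cond (Ik κ))) : ∃ δ, Loc (Iio δ) N := by
  obtain ⟨δ, hδ⟩ := reflect hκ (fun p _ => p ∈ meets N)
  refine ⟨δ, fun q q' hqq hq => ?_⟩
  by_contra hcon
  have h1 : ∃ q'' ≤ q', q'' ∈ fnot (meets N) := by
    by_contra hc
    push Not at hc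
    refine hcon (meets_of_dense fun r hr => ?_)
    obtain ⟨s, hs, h | h⟩ := exists_dec N r
    · exact ⟨s, hs, h⟩
    · exact absurd h (hc s (hs.trans hr))
  obtain ⟨q'', hq'', h2⟩ := h1
  obtain ⟨r, hr, hr'⟩ := exists_am (Iio δ) q (pr (Iio δ) q'') (by
    rw [hqq]
    exact pr_mono hq'')
  rw [pr_pr] at hr'
  obtain ⟨p', _, h3, _, t, ht, ht'⟩ := hδ r δ (meets_dn hq hr) q'' hr'.symm
  exact h2 t ht' (meets_dn h3 ht)

theorem exists_loc_family (hκ : κ.IsInaccessible) {ι : Type} (hι : #ι < κ)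
    (N : ι → Set (Cond (Ik κ))) : ∃ δ, ∀ i, Loc (Iio δ) (N i) := by
  choose δ hδ using fun i => exists_loc hκ (N i)
  obtain ⟨δ', hδ'⟩ := bddK hκ (range δ) (mk_range_le.trans_lt hι)
  exact ⟨δ', fun i => (hδ i).mono (Iio_subset_Iio (hδ' _ ⟨i, rfl⟩).le)⟩

/-- fewer than `κ` incompatible conditions -/
theorem lt_of_incompat (hκ : κ.IsInaccessible) {S : Type} (P : S → Cond (Ik κ))
    (h : ∀ s t, (∃ r, r ≤ P s ∧ r ≤ P t) → s = t) : #S < κ := by
  by_contra hcon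
  have h1 : #(Ik κ) ≤ #S := by
    rw [mk_ord_toType]
    exact not_lt.1 hcon
  obtain ⟨e⟩ := h1
  obtain ⟨i, j, hij, hr⟩ := cc hκ fun i => P (e i)
  exact hij.ne (e.injective (h _ _ hr))

/-- the underlying set of a tree of height `ω₁` with countable levels is small -/
theorem lt_tree (hκ : κ.IsInaccessible) {L : Type} {R : L → L → Set (Cond (Ik κ))}
    {ℓ : L → W → Set (Cond (Ik κ))} {p0 : Cond (Ik κ)} (h0 : p0 ∈ IsTree ℕ R ℓ) : #L < κ := by
  classical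
  have hcov : (⋃ a : W, {u : L | ∃ q ≤ p0, q ∈ meets (ℓ u a)}) = Set.univ := by
    ext u
    simp only [mem_iUnion, mem_univ, iff_true]
    obtain ⟨q, hq, a, ha⟩ := t_total h0 le_rfl u
    exact ⟨a, q, hq, ha⟩
  rw [← mk_univ, ← hcov]
  refine lt_iUnion hκ (lt_W hκ) _ fun a => ?_
  obtain ⟨A, hA1, hA2, hA3⟩ := Pool.Agent.W873.Club.exists_maxAntichain
    {q : Cond (Ik κ) | q ≤ p0 ∧ ∃ F : ℕ → L → Set (Cond (Ik κ)), q ∈ IsFun F ∧
      ∀ x, ∀ r ≤ q, r ∈ meets (ℓ x a) → ∃ s ≤ r, ∃ w, s ∈ meets (F w x)}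
  have hAc : #A < κ := lt_of_incompat hκ (fun a : A => a.1) fun s t h =>
    Subtype.ext (hA2 s.1 s.2 t.1 t.2 h)
  have hF : ∀ b : A, ∃ F : ℕ → L → Set (Cond (Ik κ)), b.1 ∈ IsFun F ∧
      ∀ x, ∀ r ≤ b.1, r ∈ meets (ℓ x a) → ∃ s ≤ r, ∃ w, s ∈ meets (F w x) := fun b =>
    (hA1 b.2).2
  choose F hF1 hF2 using hF
  have hsub : {u : L | ∃ q ≤ p0, q ∈ meets (ℓ u a)} ⊆
      ⋃ b : A × ℕ, {u : L | ∃ q ≤ b.1.1, q ∈ meets (F b.1 b.2 u)} := by
    rintro u ⟨q, hq, hu⟩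
    obtain ⟨q1, hq1, F1, h1, h2⟩ := t_small h0 hq a
    obtain ⟨b, hb, s, hs, hsb⟩ := hA3 q1 ⟨hq1.trans hq, F1, h1, h2⟩
    obtain ⟨t, ht, w, hw⟩ := hF2 ⟨b, hb⟩ u s hsb (meets_dn hu (hs.trans hq1))
    exact mem_iUnion.2 ⟨(⟨b, hb⟩, w), t, ht.trans hsb, hw⟩
  refine (mk_le_mk_of_subset hsub).trans_lt (lt_iUnion hκ (lt_prod hκ hAc (lt_nat hκ)) _ ?_)
  rintro ⟨b, w⟩
  refine lt_of_incompat hκ (fun u : {u : L | ∃ q ≤ b.1, q ∈ meets (F b w u)} => u.2.choose)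
    fun s t h => ?_
  obtain ⟨r, hr, hr'⟩ := h
  have hs := s.2.choose_spec
  have ht := t.2.choose_spec
  exact Subtype.ext (IsFun.unique (down_IsFun _ _ (hF1 b) r (hr.trans hs.1))
    (meets_dn hs.2 hr) (meets_dn ht.2 hr'))

end Cond

end Pool.Agent.W873.Kh
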