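import Mathlib
import Pool.Agent.W873.Kh.Cc

set_option autoImplicit false

/-!
# The Kurepa hypothesis fails
-/

namespace Pool.Agent.W873.Kh

open Filter Topology Set Cardinal Pool.Agent.Helper669.Forcing Pool.Agent.W873.Gmp

/-- In the extension, `ω₁` of the ground model is not countable. -/
def OmegaOnePreserved (P : Type) [Preorder P] : Set P :=
  fnot (fex fun R : ℕ → W → Set P => fand (IsFun R) (IsOnto R))

/-- In the extension, the named subsets `B` and `B'` of `L` are equal. -/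
def SameSet {P : Type} [Preorder P] {L : Type} (B B' : L → Set P) : Set P :=
  fall fun x : L => fand (fimp (meets (B x)) (meets (B' x))) (fimp (meets (B' x)) (meets (B x)))

/-- The Kurepa hypothesis in the extension: there is a tree of height `ω₁` with countable levels,
such that there is no enumeration of its cofinal branches by `ω₁`. -/
def KurepaHyp (P : Type) [Preorder P] : Set P :=
  fex fun L : Type => fex fun R : L → L → Set P => fex fun ℓ : L → W → Set P =>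
    fand (IsTree ℕ R ℓ) (fall fun E : W → L → Set P => fex fun B : L → Set P =>
      fand (IsCofinalBranch R ℓ B) (fall fun i : W => fnot (SameSet B (E i))))

variable {κ : Cardinal.{0}}

namespace Cond

section ext

variable {I : Type} [LinearOrder I]

open Classical in
/-- adding a value to the collapse -/
noncomputable def addE (p : Cond I) (j : I) (i : W) (x : I) (hx : x < j) : Cond I where
  β := p.β
  tr := p.tr
  tr_self := p.tr_self
  tr_comp := p.tr_comp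
  tr_surj := p.tr_surj
  tr_meas := p.tr_meas
  A := p.A
  A_cnt := p.A_cnt
  f := p.f
  f_meas := p.f_meas
  f_out := p.f_out
  E := insert (j, i) p.E
  E_cnt := p.E_cnt.insert _
  g := fun j' i' => if j' = j ∧ i' = i then x else p.g j' i'
  g_lt := fun j' i' h => by
    split_ifs with h1
    · rw [h1.1]
      exact hx
    · refine p.g_lt j' i' (h.resolve_left fun h2 => h1 ?_)
      simp only [Prod.mk.injEq] at h2
      exact h2
  g_out := fun j' i' h => by
    have h1 : ¬ (j' = j ∧ i' = i) := fun h2 => h (Or.inl (Prod.ext h2.1 h2.2))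
    rw [if_neg h1]
    exact p.g_out j' i' fun h2 => h (Or.inr h2)

theorem addE_le (p : Cond I) {j : I} {i : W} {x : I} (hx : x < j) (h : (j, i) ∉ p.E) :
    p.addE j i x hx ≤ p := by
  classical
  refine ⟨le_rfl, fun _ _ _ _ _ _ => rfl, Subset.rfl,
    fun ξ _ => Eventually.of_forall fun c => p.tr_self c _ _ le_rfl, subset_insert _ _,
    fun j' i' h' => ?_⟩
  refine if_neg fun h1 => h ?_
  rw [← h1.1, ← h1.2]
  exact h'

theorem addE_g (p : Cond I) {j : I} {i : W} {x : I} (hx : x < j) : (p.addE j i x hx).g j i = x :=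
  if_pos ⟨rfl, rfl⟩

end ext

theorem exists_fresh (S : Set W) (hS : S.Countable) : ∃ i, i ∉ S := by
  obtain ⟨δ, hδ⟩ := W_bdd S hS
  exact ⟨δ, fun h => lt_irrefl _ (hδ δ h)⟩

/-- all names with support in `α` are enumerated -/
theorem enum_names (hκ : κ.IsInaccessible) {L : Type} (hL : #L < κ) (α : Ik κ) :
    ∃ E : W → L → Set (Cond (Ik κ)), ∀ N : L → Set (Cond (Ik κ)),
      (∀ u, ∀ n ∈ N u, pr (Iio α) n = n) → ∀ p : Cond (Ik κ), ∃ q ≤ p, ∃ i, ∀ u, ∀ r ≤ q,
        (r ∈ meets (N u) ↔ r ∈ meets (E i u)) := by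
  classical
  let V : Type := range fun p : Cond (Ik κ) => pr (Iio α) p
  have hV : #V < κ := lt_range_pr hκ α
  have hN : #(L → Set V) < κ := lt_fun hκ hL (lt_set hκ hV)
  have hle : #(L → Set V) ≤ #(Ik κ) := by
    rw [mk_ord_toType]
    exact hN.le
  obtain ⟨S, hS⟩ := le_mk_iff_exists_set.1 hle
  obtain ⟨j, hj⟩ := bddK hκ S (hS ▸ hN)
  obtain ⟨e⟩ := Cardinal.eq.1 hS
  have hne : Nonempty (L → Set V) := ⟨fun _ => ∅⟩
  let θ : Ik κ → (L → Set V) := fun x => if h : x ∈ S then e ⟨x, h⟩ else hne.some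
  have hθ : ∀ N, ∃ x < j, θ x = N := by
    intro N
    refine ⟨(e.symm N).1, hj _ (e.symm N).2, ?_⟩
    change (if h : (e.symm N).1 ∈ S then e ⟨(e.symm N).1, h⟩ else hne.some) = N
    rw [dif_pos (e.symm N).2]
    exact e.apply_symm_apply N
  refine ⟨fun i u => {p | (j, i) ∈ p.E ∧ ∃ n ∈ θ (p.g j i) u, p ≤ n.1}, fun N hNu p => ?_⟩
  obtain ⟨x, hx, hθx⟩ := hθ fun u => {v : V | v.1 ∈ N u}
  obtain ⟨i, hi⟩ := exists_fresh {i | (j, i) ∈ p.E} (by
    refine (p.E_cnt.image Prod.snd).mono ?_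
    intro i hi
    exact ⟨(j, i), hi, rfl⟩)
  refine ⟨p.addE j i x hx, addE_le p hx hi, i, fun u r hr => ?_⟩
  have hg : ∀ t ≤ r, (j, i) ∈ t.E ∧ t.g j i = x := by
    intro t ht
    have h1 : t ≤ p.addE j i x hx := ht.trans hr
    have h2 : (j, i) ∈ (p.addE j i x hx).E := mem_insert _ _
    exact ⟨h1.E h2, (h1.g j i h2).trans (addE_g p hx)⟩
  constructor
  · intro h s hs
    obtain ⟨t, ht, n, hn, htn⟩ := h s hs
    obtain ⟨h1, h2⟩ := hg t (ht.trans hs)
    refine ⟨t, ht, t, ⟨h1, ⟨n, ⟨n, hNu u n hn⟩⟩, ?_, htn⟩, le_rfl⟩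
    rw [h2, hθx]
    exact hn
  · intro h s hs
    obtain ⟨t, ht, e', ⟨he1, n, hn, hen⟩, hte⟩ := h s hs
    obtain ⟨h1, h2⟩ := hg t (ht.trans hs)
    rw [← hte.g j i he1, h2, hθx] at hn
    exact ⟨t, ht, n.1, hn, hte.trans hen⟩

theorem not_kurepa (hκ : κ.IsInaccessible) (p : Cond (Ik κ)) :
    p ∈ fnot (KurepaHyp (Cond (Ik κ))) := by
  classical
  intro q _ hq
  obtain ⟨q1, _, L, hq1⟩ := mem_fex.1 hq q le_rfl
  obtain ⟨q2, hq2, R, hq2'⟩ := mem_fex.1 hq1 q1 le_rfl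
  obtain ⟨q3, hq3, ℓ, h0, hE⟩ := mem_fex.1 hq2' q2 le_rfl
  have hL := lt_tree hκ h0
  obtain ⟨δ1, hδ1⟩ := exists_loc_family hκ (lt_prod hκ hL hL)
    (fun x : L × L => R x.1 x.2)
  obtain ⟨δ2, hδ2⟩ := exists_loc_family hκ (lt_prod hκ hL (lt_W hκ))
    (fun x : L × W => ℓ x.1 x.2)
  let α := max δ1 δ2
  have hR : ∀ x y, Loc (Iio α) (R x y) := fun x y =>
    (hδ1 (x, y)).mono (Iio_subset_Iio (le_max_left _ _))
  have hℓ : ∀ x a, Loc (Iio α) (ℓ x a) := fun x a =>
    (hδ2 (x, a)).mono (Iio_subset_Iio (le_max_right _ _))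
  obtain ⟨E, hEn⟩ := enum_names hκ hL α
  obtain ⟨q4, hq4, B, hB, hBE⟩ := mem_fex.1 (hE E) q3 le_rfl
  obtain ⟨p', hp', hns⟩ := no_new_branch h0 hR hℓ hq4 hB
  let N : L → Set (Cond (Ik κ)) := fun u => {v | ∃ r ≤ p', pr (Iio α) r = v ∧ r ∈ meets (B u)}
  have hN : ∀ u, ∀ n ∈ N u, pr (Iio α) n = n := by
    rintro u _ ⟨r, _, rfl, _⟩
    exact pr_pr
  have hBN : ∀ u, ∀ r ≤ p', (r ∈ meets (B u) ↔ r ∈ meets (N u)) := by
    intro u r hr
    constructor
    · intro h s hs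
      exact ⟨s, le_rfl, pr (Iio α) s, ⟨s, hs.trans hr, rfl, meets_dn h hs⟩, le_pr _ s⟩
    · intro h
      refine meets_of_dense fun s hs => ?_
      obtain ⟨t, ht, _, ⟨r', hr', rfl, hr'B⟩, htn⟩ := h s hs
      obtain ⟨t', ht', h1 | h1⟩ := exists_dec (B u) t
      · exact ⟨t', ht'.trans ht, h1⟩
      · exfalso
        have h2 : pr (Iio α) t' ≤ pr (Iio α) r' := by
          have := pr_mono (X := Iio α) (ht'.trans htn)
          rwa [pr_pr] at this
        obtain ⟨a, ha, ha'⟩ := exists_am (Iio α) r' (pr (Iio α) t') h2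
        rw [pr_pr] at ha'
        exact hns a (ha.trans hr') t' ((ht'.trans ht).trans (hs.trans hr)) ha' u
          (meets_dn hr'B ha) h1
  obtain ⟨q5, hq5, i, hi⟩ := hEn N hN p'
  refine hBE i q5 (hq5.trans hp') fun u => ⟨?_, ?_⟩
  · refine mem_fimp.2 fun s hs h => ⟨s, le_rfl, ?_⟩
    exact (hi u s hs).1 ((hBN u s (hs.trans hq5)).1 h)
  · refine mem_fimp.2 fun s hs h => ⟨s, le_rfl, ?_⟩
    exact (hBN u s (hs.trans hq5)).2 ((hi u s hs).2 h)

theorem omegaOne {I : Type} [LinearOrder I] (p : Cond I) : p ∈ OmegaOnePreserved (Cond I) := by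
  intro q _ hq
  obtain ⟨q1, _, R, hF, hO⟩ := mem_fex.1 hq q le_rfl
  obtain ⟨q2, hq2, hval⟩ := exists_generic q1
    (fun k : ℕ => {q : Cond I | ∃ v, q ∈ meets (R k v)})
    (fun a q h q' hq' => by
      obtain ⟨γ, hγ⟩ := h
      exact ⟨γ, meets_dn hγ hq'⟩)
    (fun k q hq => by
      obtain ⟨r, hr, v, hv⟩ := IsFun.total (down_IsFun R q1 hF q hq) k
      exact ⟨r, hr, v, hv⟩)
  choose w hw using hval
  obtain ⟨Γ, hΓ⟩ := W_bdd (range w) (countable_range w)
  obtain ⟨q3, hq3, k, hk⟩ := mem_fex.1 (hO Γ) q2 hq2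
  have := IsFun.unique (down_IsFun R q1 hF q3 (hq3.trans hq2)) hk (meets_dn (hw k) hq3)
  exact absurd this (hΓ _ ⟨k, rfl⟩).ne'

end Cond

end Pool.Agent.W873.Kh
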