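import Mathlib
import Pool.Agent.W873.Kh.NotKH

set_option autoImplicit false

/-!
# After adding a Cohen real there is a Kurepa tree
-/

namespace Pool.Agent.W873.Kh

open Filter Topology Set Cardinal Pool.Agent.Helper669.Forcing Pool.Agent.W873.Gmp

variable {κ : Cardinal.{0}}

namespace Cond

section ext

variable {I : Type} [LinearOrder I]

open Classical in
/-- adding a splitting level (at `γ`) on the top -/
noncomputable def spl (p : Cond I) (γ : W) (η : I) (h : p.β < γ) : Cond I where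
  β := γ
  tr c a b n := if b ≤ p.β then p.tr c a b n else if a ≤ p.β then p.tr c a p.β (n / 2) else n
  tr_self c a n _ := by
    split_ifs with h1
    · exact p.tr_self c a n h1
    · rfl
  tr_comp c a b d n hab hbd _ := by
    by_cases hd : d ≤ p.β
    · rw [if_pos hd, if_pos hd, if_pos (hbd.trans hd)]
      exact p.tr_comp c a b d n hab hbd hd
    · rw [if_neg hd, if_neg hd]
      by_cases hb : b ≤ p.β
      · rw [if_pos hb, if_pos hb, if_pos (hab.trans hb)]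
        exact p.tr_comp c a b p.β _ hab hb le_rfl
      · rw [if_neg hb, if_neg hb]
  tr_surj c a b m hab _ := by
    by_cases hb : b ≤ p.β
    · obtain ⟨n, hn⟩ := p.tr_surj c a b m hab hb
      exact ⟨n, by rw [if_pos hb]; exact hn⟩
    · by_cases ha : a ≤ p.β
      · obtain ⟨n, hn⟩ := p.tr_surj c a p.β m ha le_rfl
        refine ⟨2 * n, ?_⟩
        rw [if_neg hb, if_pos ha, Nat.mul_div_cancel_left n (by norm_num)]
        exact hn
      · exact ⟨m, by rw [if_neg hb, if_neg ha]⟩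
  tr_meas a b n hab _ := by
    by_cases hb : b ≤ p.β
    · simp only [hb, if_true]
      exact p.tr_meas a b n hab hb
    · by_cases ha : a ≤ p.β
      · simp only [hb, ha, if_true, if_false]
        exact p.tr_meas a p.β _ ha le_rfl
      · simp only [hb, ha, if_false]
        exact measurable_const
  A := p.A
  A_cnt := p.A_cnt
  f c ξ := if ξ ∈ p.A then 2 * p.f c ξ + (if ξ = η then 1 else 0) else 0
  f_meas ξ := by
    by_cases h : ξ ∈ p.A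
    · simp only [h, if_true]
      exact (measurable_from_nat (f := fun n : ℕ => 2 * n + (if ξ = η then 1 else 0))).comp
        (p.f_meas ξ)
    · simp only [h, if_false]
      exact measurable_const
  f_out c ξ h := if_neg h
  E := p.E
  E_cnt := p.E_cnt
  g := p.g
  g_lt := p.g_lt
  g_out := p.g_out

theorem spl_le (p : Cond I) {γ : W} {η : I} (h : p.β < γ) : p.spl γ η h ≤ p := by
  classical
  refine ⟨h.le, fun c a b n _ hb => ?_, Subset.rfl, fun ξ hξ => ?_, Subset.rfl,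
    fun _ _ _ => rfl⟩
  · exact if_pos hb
  · refine Eventually.of_forall fun c => ?_
    change (if γ ≤ p.β then _ else if p.β ≤ p.β then p.tr c p.β p.β
      ((if ξ ∈ p.A then 2 * p.f c ξ + (if ξ = η then 1 else 0) else 0) / 2) else _) = p.f c ξ
    rw [if_neg (not_le.2 h), if_pos le_rfl, if_pos hξ, p.tr_self c _ _ le_rfl]
    split_ifs <;> omega

theorem spl_f (p : Cond I) {γ : W} {η ξ : I} (h : p.β < γ) (hξ : ξ ∈ p.A) (hη : η ∈ p.A)
    (hne : ξ ≠ η) (c : Re) : (p.spl γ η h).f c ξ ≠ (p.spl γ η h).f c η := by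
  classical
  change (if ξ ∈ p.A then 2 * p.f c ξ + (if ξ = η then 1 else 0) else 0) ≠
    (if η ∈ p.A then 2 * p.f c η + (if η = η then 1 else 0) else 0)
  rw [if_pos hξ, if_pos hη, if_neg hne, if_pos rfl]
  omega

theorem exists_high [Nonempty I] (p : Cond I) (γ : W) : ∃ q ≤ p, γ ≤ q.β := by
  by_cases h : γ ≤ p.β
  · exact ⟨p, le_rfl, h⟩
  · exact ⟨p.spl γ (Classical.arbitrary I) (not_le.1 h), spl_le p _, le_rfl⟩

/-- the order of the tree -/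
def Rk (x y : W × ℕ) : Set (Cond I × Add1) :=
  {a | x.1 < y.1 ∧ y.1 ≤ a.1.β ∧ Frc a.2 fun c => a.1.tr c x.1 y.1 y.2 = x.2}

/-- the levels -/
def ℓk (x : W × ℕ) (γ : W) : Set (Cond I × Add1) := {_a | x.1 = γ}

/-- the branches -/
def Bk (ξ : I) (x : W × ℕ) : Set (Cond I × Add1) :=
  {a | ξ ∈ a.1.A ∧ x.1 ≤ a.1.β ∧ Frc a.2 fun c => a.1.tr c x.1 a.1.β (a.1.f c ξ) = x.2}

theorem down_Rk (x y : W × ℕ) : Down (Rk (I := I) x y) := by
  rintro ⟨p, s⟩ ⟨h1, h2, h3⟩ ⟨q, t⟩ hq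
  have hqp : q ≤ p := hq.1
  have hts : t ≤ s := hq.2
  refine ⟨h1, h2.trans hqp.β, ?_⟩
  refine (h3.mono hts).imp fun c hc => ?_
  exact (hqp.tr c x.1 y.1 y.2 h1.le h2).trans hc

theorem down_Bk (ξ : I) (x : W × ℕ) : Down (Bk ξ x) := by
  rintro ⟨p, s⟩ ⟨h1, h2, h3⟩ ⟨q, t⟩ hq
  have hqp : q ≤ p := hq.1
  have hts : t ≤ s := hq.2
  refine ⟨hqp.A h1, h2.trans hqp.β, ?_⟩
  refine ((h3.mono hts).and (Frc.of_ae (s := t) (hqp.f ξ h1))).imp ?_
  rintro c ⟨hc1, hc2⟩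
  change q.tr c x.1 q.β (q.f c ξ) = x.2
  rw [← q.tr_comp c x.1 p.β q.β _ h2 hqp.β le_rfl, hc2, hqp.tr c x.1 p.β _ h2 le_rfl]
  exact hc1

theorem mem_ℓk {x : W × ℕ} {γ : W} {a : Cond I × Add1} : a ∈ meets (ℓk x γ) ↔ x.1 = γ := by
  constructor
  · intro h
    obtain ⟨_, _, _, h1, _⟩ := h a le_rfl
    exact h1
  · intro h
    exact meets_of_mem h

theorem kurepa_tree [Nonempty I] (a : Cond I × Add1) :
    a ∈ IsTree ℕ (Rk (I := I)) ℓk := by
  refine ⟨⟨fun x => ?_, fun x γ γ' => ?_⟩, fun x y γ γ' => ?_, fun x y z => ?_, fun y b α hα => ?_,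
    fun x y z α => ?_, fun α => ?_, fun α => ?_⟩
  · exact mem_fex.2 fun q _ => ⟨q, le_rfl, x.1, mem_ℓk.2 rfl⟩
  · refine mem_fimp.2 fun q _ h => ⟨q, le_rfl, ?_⟩
    exact (mem_ℓk.1 h.1).symm.trans (mem_ℓk.1 h.2)
  · refine mem_fimp.2 fun q _ h => ⟨q, le_rfl, ?_⟩
    obtain ⟨r, _, h1⟩ := exists_of_meets (down_Rk x y) h.1
    change γ < γ'
    rw [← mem_ℓk.1 h.2.1, ← mem_ℓk.1 h.2.2]
    exact h1.1
  · refine mem_fimp.2 fun q _ h => ?_
    obtain ⟨r, hr, h1⟩ := exists_of_meets (down_Rk x y) h.1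
    obtain ⟨r', hr', h2⟩ := exists_of_meets (down_Rk y z) (meets_dn h.2 hr)
    have h1' := down_Rk x y r h1 r' hr'
    refine ⟨r', hr'.trans hr, meets_of_mem ⟨h1'.1.trans h2.1, h2.2.1, ?_⟩⟩
    refine (h1'.2.2.and h2.2.2).imp ?_
    rintro c ⟨hc1, hc2⟩
    rw [← r'.1.tr_comp c x.1 y.1 z.1 z.2 h1'.1.le h2.1.le h2.2.1, hc2, hc1]
  · refine mem_fimp.2 fun q _ h => ?_
    have hb : y.1 = b := mem_ℓk.1 h
    obtain ⟨p', hp', hβ⟩ := exists_high q.1 y.1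
    have hα' : α < y.1 := hb ▸ hα
    obtain ⟨t, ht, n, hn⟩ := frc_value (p'.tr_meas α y.1 y.2 hα'.le hβ) q.2
    refine ⟨(p', t), ⟨hp', ht⟩, mem_fex.2 fun r hr => ⟨r, le_rfl, (α, n), ?_, mem_ℓk.2 rfl⟩⟩
    exact meets_of_mem (down_Rk (α, n) y (p', t) ⟨hα', hβ, hn⟩ r hr)
  · refine mem_fimp.2 fun q _ h => ⟨q, le_rfl, ?_⟩
    obtain ⟨⟨h1, h2⟩, h3, h4⟩ := h
    obtain ⟨r, hr, h1⟩ := exists_of_meets (down_Rk x z) h1
    obtain ⟨r', hr', h2⟩ := exists_of_meets (down_Rk y z) (meets_dn h2 hr)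
    have h1' := down_Rk x z r h1 r' hr'
    have hxy : x.1 = y.1 := (mem_ℓk.1 h3).trans (mem_ℓk.1 h4).symm
    obtain ⟨c, _, hc1, hc2⟩ := (h1'.2.2.and h2.2.2).exists
    change x = y
    refine Prod.ext hxy ?_
    rw [← hc1, ← hc2, hxy]
  · exact mem_fex.2 fun q _ => ⟨q, le_rfl, (α, 0), mem_ℓk.2 rfl⟩
  · refine mem_fex.2 fun q _ => ⟨q, le_rfl, fun w x => {_b | x = (α, w)}, ⟨fun w => ?_,
      fun w x x' => ?_⟩, fun x => ?_⟩
    · exact mem_fex.2 fun r _ => ⟨r, le_rfl, (α, w), meets_of_mem rfl⟩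
    · refine mem_fimp.2 fun r _ h => ⟨r, le_rfl, ?_⟩
      obtain ⟨_, _, _, h1, _⟩ := h.1 r le_rfl
      obtain ⟨_, _, _, h2, _⟩ := h.2 r le_rfl
      exact (show x = (α, w) from h1).trans (show x' = (α, w) from h2).symm
    · refine mem_fimp.2 fun r _ h => ⟨r, le_rfl, ?_⟩
      refine mem_fex.2 fun s _ => ⟨s, le_rfl, x.2, meets_of_mem ?_⟩
      change x = (α, x.2)
      exact Prod.ext (mem_ℓk.1 h) rfl

theorem kurepa_branch [Nonempty I] (ξ : I) (a : Cond I × Add1) :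
    a ∈ IsCofinalBranch (Rk (I := I)) ℓk (Bk ξ) := by
  refine ⟨fun x y => ?_, fun α => ?_⟩
  · refine mem_fimp.2 fun q _ h => ?_
    obtain ⟨r, hr, h1⟩ := exists_of_meets (down_Bk ξ x) h.1
    obtain ⟨r', hr', h2⟩ := exists_of_meets (down_Bk ξ y) (meets_dn h.2 hr)
    have h1' := down_Bk ξ x r h1 r' hr'
    refine ⟨r', hr'.trans hr, ?_⟩
    have key : ∀ x y : W × ℕ, r' ∈ Bk ξ x → r' ∈ Bk ξ y → x.1 < y.1 → r' ∈ Rk x y := by
      intro x y hx hy hxy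
      refine ⟨hxy, hy.2.1, (hx.2.2.and hy.2.2).imp ?_⟩
      rintro c ⟨hc1, hc2⟩
      rw [← hc2, r'.1.tr_comp c x.1 y.1 _ _ hxy.le hy.2.1 le_rfl]
      exact hc1
    rcases lt_trichotomy x.1 y.1 with hxy | hxy | hxy
    · exact for'_right (down_for' _ _) (for'_left (down_meets _)
        (meets_of_mem (key x y h1' h2 hxy)))
    · refine for'_left (down_fground _) ?_
      obtain ⟨c, _, hc1, hc2⟩ := (h1'.2.2.and h2.2.2).exists
      change x = y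
      refine Prod.ext hxy ?_
      rw [← hc1, ← hc2, hxy]
    · exact for'_right (down_for' _ _) (for'_right (down_meets _)
        (meets_of_mem (key y x h2 h1' hxy)))
  · refine mem_fex.2 fun q _ => ?_
    obtain ⟨p', hp', hβ⟩ := exists_high q.1 α
    let p'' : Cond I := p'.addA {ξ} (countable_singleton ξ)
    have hp'' : p'' ≤ p' := addA_le _ _ _
    have hm : Measurable fun c => p''.tr c α p''.β (p''.f c ξ) :=
      measurable_comp_nat (fun n => p''.tr_meas α p''.β n hβ le_rfl) (p''.f_meas ξ)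
    obtain ⟨t, ht, n, hn⟩ := frc_value hm q.2
    refine ⟨(p'', t), ⟨hp''.trans hp', ht⟩, (α, n), meets_of_mem ⟨Or.inr rfl, hβ, hn⟩,
      mem_ℓk.2 rfl⟩

theorem omegaOne_prod (a : Cond I × Add1) : a ∈ OmegaOnePreserved (Cond I × Add1) := by
  classical
  intro q _ hq
  obtain ⟨q1, _, R, hF, hO⟩ := mem_fex.1 hq q le_rfl
  obtain ⟨p2, hp2, hval⟩ := exists_generic q1.1
    (fun k : ℕ × Add1 => {p : Cond I | k.2 ≤ q1.2 → ∃ t ≤ k.2, ∃ w, (p, t) ∈ meets (R k.1 w)})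
    (fun k p h p' hp' hk => by
      obtain ⟨t, ht, w, hw⟩ := h hk
      exact ⟨t, ht, w, meets_dn hw ⟨hp', le_rfl⟩⟩)
    (fun k p hp => by
      by_cases hk : k.2 ≤ q1.2
      · obtain ⟨⟨p', t⟩, hr, w, hw⟩ := IsFun.total (down_IsFun R q1 hF (p, k.2) ⟨hp, hk⟩) k.1
        exact ⟨p', hr.1, fun _ => ⟨t, hr.2, w, hw⟩⟩
      · exact ⟨p, le_rfl, fun h => absurd h hk⟩)
  have h0 : ∃ γ0 : W, True := ⟨q1.1.β, trivial⟩
  have hch : ∀ k : ℕ × Add1, ∃ (t : Add1) (w : W), k.2 ≤ q1.2 →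
      (t ≤ k.2 ∧ (p2, t) ∈ meets (R k.1 w)) := by
    intro k
    by_cases hk : k.2 ≤ q1.2
    · obtain ⟨t, ht, w, hw⟩ := hval k hk
      exact ⟨t, w, fun _ => ⟨ht, hw⟩⟩
    · exact ⟨k.2, q1.1.β, fun h => absurd h hk⟩
  choose t w htw using hch
  obtain ⟨Γ, hΓ⟩ := W_bdd (range w) (countable_range w)
  obtain ⟨⟨p3, t3⟩, hr3, n, hn⟩ := mem_fex.1 (hO Γ) (p2, q1.2) ⟨hp2, le_rfl⟩
  have ht3 : t3 ≤ q1.2 := hr3.2
  obtain ⟨h1, h2⟩ := htw (n, t3) ht3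
  have h3 : ((p3, t (n, t3)) : Cond I × Add1) ≤ q1 :=
    ⟨(show p3 ≤ p2 from hr3.1).trans hp2, (show t (n, t3) ≤ t3 from h1).trans ht3⟩
  have h4 : ((p3, t (n, t3)) : Cond I × Add1) ≤ (p2, t (n, t3)) :=
    ⟨hr3.1, le_rfl⟩
  have h5 : ((p3, t (n, t3)) : Cond I × Add1) ≤ (p3, t3) := ⟨le_rfl, h1⟩
  have := IsFun.unique (down_IsFun R q1 hF _ h3) (meets_dn hn h5) (meets_dn h2 h4)
  exact absurd this (hΓ _ ⟨(n, t3), rfl⟩).ne'

end ext

theorem distinct {I : Type} [LinearOrder I] [Nonempty I] {ξ η : I} (hne : ξ ≠ η)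
    {a : Cond I × Add1} {B : W × ℕ → Set (Cond I × Add1)} (h : a ∈ SameSet (Bk ξ) B)
    (h' : a ∈ SameSet (Bk η) B) : False := by
  classical
  obtain ⟨p, s⟩ := a
  let p1 : Cond I := p.addA {ξ, η} (by simp)
  have hp1 : p1 ≤ p := addA_le _ _ _
  obtain ⟨γ, hγ⟩ := W_bdd {p1.β} (countable_singleton _)
  have hγ' : p1.β < γ := hγ _ rfl
  have hξ : ξ ∈ p1.A := Or.inr (by simp)
  have hη : η ∈ p1.A := Or.inr (by simp)
  let p2 : Cond I := p1.spl γ η hγ'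
  have hp2 : p2 ≤ p1 := spl_le p1 hγ'
  obtain ⟨t, ht, n, hn⟩ := frc_value (p2.f_meas ξ) s
  have h1 : ((p2, t) : Cond I × Add1) ≤ (p, s) := ⟨hp2.trans hp1, ht⟩
  have h2 : ((p2, t) : Cond I × Add1) ∈ Bk ξ (γ, n) := by
    refine ⟨hξ, le_rfl, hn.imp fun c hc => ?_⟩
    exact (p2.tr_self c γ _ le_rfl).trans hc
  obtain ⟨r1, hr1, h3⟩ := mem_fimp.1 (h (γ, n)).1 (p2, t) h1 (meets_of_mem h2)
  obtain ⟨r2, hr2, h4⟩ := mem_fimp.1 (h' (γ, n)).2 r1 (hr1.trans h1) h3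
  obtain ⟨r3, hr3, h5⟩ := exists_of_meets (down_Bk η (γ, n)) h4
  have hr30 : r3 ≤ (p2, t) := hr3.trans (hr2.trans hr1)
  have h6 := down_Bk ξ (γ, n) _ h2 r3 hr30
  have hp3 : r3.1 ≤ p2 := hr30.1
  obtain ⟨c, _, ⟨hc1, hc2⟩, hc3, hc4⟩ := ((h5.2.2.and h6.2.2).and
    ((Frc.of_ae (s := r3.2) (hp3.f ξ hξ)).and (Frc.of_ae (s := r3.2) (hp3.f η hη)))).exists
  change r3.1.tr c γ r3.1.β (r3.1.f c ξ) = p2.f c ξ at hc3
  change r3.1.tr c γ r3.1.β (r3.1.f c η) = p2.f c η at hc4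
  change r3.1.tr c γ r3.1.β (r3.1.f c η) = n at hc1
  change r3.1.tr c γ r3.1.β (r3.1.f c ξ) = n at hc2
  exact spl_f p1 hγ' hξ hη hne c (hc3.symm.trans (hc2.trans (hc1.symm.trans hc4)))

theorem lt_Add1 (hκ : κ.IsInaccessible) : #Add1 < κ := (mk_le_aleph0).trans_lt hκ.aleph0_lt

theorem kurepa (hκ : κ.IsInaccessible) (a : Cond (Ik κ) × Add1) :
    a ∈ KurepaHyp (Cond (Ik κ) × Add1) := by
  classical
  have hne : Nonempty (Ik κ) := by
    rw [← mk_ne_zero_iff, mk_ord_toType]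
    exact hκ.ne_zero
  refine mem_fex.2 fun a1 _ => ⟨a1, le_rfl, W × ℕ, ?_⟩
  refine mem_fex.2 fun a2 _ => ⟨a2, le_rfl, Rk, ?_⟩
  refine mem_fex.2 fun a3 _ => ⟨a3, le_rfl, ℓk, kurepa_tree a3, ?_⟩
  intro E
  refine mem_fex.2 fun q _ => ?_
  by_contra hcon
  push Not at hcon
  have h1 : ∀ ξ : Ik κ, ∃ (i : W) (r : Cond (Ik κ) × Add1), r ≤ q ∧
      r ∈ SameSet (Bk ξ) (E i) := by
    intro ξ
    have h2 := hcon q le_rfl (Bk ξ)
    by_contra hc
    push Not at hc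
    exact h2 ⟨kurepa_branch ξ q, fun i r hr => hc i r hr⟩
  choose i r hr hsame using h1
  have hreg := hκ.isRegular
  have hlt : #(W × Add1) < κ := lt_prod hκ (lt_W hκ) (lt_Add1 hκ)
  obtain ⟨b, hb⟩ := infinite_pigeonhole (fun ξ : Ik κ => (i ξ, (r ξ).2))
    (by rw [mk_ord_toType]; exact hκ.aleph0_lt.le)
    (by rw [mk_ord_toType, hreg.cof_ord]; exact hlt)
  obtain ⟨e⟩ := Cardinal.eq.1 hb
  obtain ⟨x, y, hxy, s, hs, hs'⟩ := cc hκ fun x => (r (e.symm x).1).1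
  have hx := (e.symm x).2
  have hy := (e.symm y).2
  have hx1 : i (e.symm x).1 = b.1 := congrArg Prod.fst hx
  have hx2 : (r (e.symm x).1).2 = b.2 := congrArg Prod.snd hx
  have hy1 : i (e.symm y).1 = b.1 := congrArg Prod.fst hy
  have hy2 : (r (e.symm y).1).2 = b.2 := congrArg Prod.snd hy
  have hne' : (e.symm x).1 ≠ (e.symm y).1 := fun h =>
    hxy.ne (e.symm.injective (Subtype.ext h))
  have h2 : ((s, b.2) : Cond (Ik κ) × Add1) ≤ r (e.symm x).1 := ⟨hs, hx2.ge⟩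
  have h3 : ((s, b.2) : Cond (Ik κ) × Add1) ≤ r (e.symm y).1 := ⟨hs', hy2.ge⟩
  have hdn : ∀ (B B' : W × ℕ → Set (Cond (Ik κ) × Add1)), Down (SameSet B B') := fun B B' =>
    down_fall fun _ => down_fand (down_fimp _ _) (down_fimp _ _)
  have h4 := hdn _ _ _ (hsame (e.symm x).1) _ h2
  have h5 := hdn _ _ _ (hsame (e.symm y).1) _ h3
  rw [hx1] at h4
  rw [hy1] at h5
  exact distinct hne' h4 h5

end Cond

end Pool.Agent.W873.Kh
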